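import Mathlib

/-!
# Random signs for the fourth moment of an additive energy sum
-/

set_option autoImplicit false

namespace Pool.Agent.TH667.J4952

/-- the sign function of a finite set -/
noncomputable def sg {G : Type} [DecidableEq G] (A : Finset G) (g : G) : ℝ :=
  if g ∈ A then -1 else 1

theorem sg_sq {G : Type} [DecidableEq G] (A : Finset G) (g : G) : sg A g * sg A g = 1 := by
  unfold sg
  split_ifs <;> norm_num

theorem sg_flip {G : Type} [DecidableEq G] (A : Finset G) (x : G) :
    sg (symmDiff A {x}) x = - sg A x := by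
  unfold sg
  by_cases h : x ∈ A <;> simp [Finset.mem_symmDiff, h]

theorem sg_flip_ne {G : Type} [DecidableEq G] (A : Finset G) {x g : G} (h : g ≠ x) :
    sg (symmDiff A {x}) g = sg A g := by
  unfold sg
  simp [Finset.mem_symmDiff, h]

theorem sum_odd {G : Type} [DecidableEq G] {E : Finset G} {x : G} (hx : x ∈ E)
    (h : Finset G → ℝ) (hh : ∀ A, h (symmDiff A {x}) = h A) :
    ∑ A ∈ E.powerset, sg A x * h A = 0 := by
  refine Finset.sum_involution (fun A _ => symmDiff A {x}) ?_ ?_ ?_ ?_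
  · intro A _
    simp only [hh, sg_flip]
    ring
  · intro A _ _ heq
    have h1 := sg_flip A x
    rw [heq] at h1
    have h2 := sg_sq A x
    have h3 : sg A x = 0 := by linarith
    rw [h3] at h2
    norm_num at h2
  · intro A hA
    rw [Finset.mem_powerset] at hA ⊢
    intro y hy
    rw [Finset.mem_symmDiff] at hy
    rcases hy with hy | hy
    · exact hA hy.1
    · rw [Finset.mem_singleton] at hy
      rw [hy.1]
      exact hx
  · intro A _
    exact symmDiff_symmDiff_cancel_right _ _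

/-- the pairing sums -/
theorem diag {G : Type} [DecidableEq G] (E : Finset G) (u : G → ℝ) :
    ∑ x ∈ E, ∑ y ∈ E, (if x = y then u x else 0) = ∑ x ∈ E, u x := by
  refine Finset.sum_congr rfl fun x hx => ?_
  rw [Finset.sum_ite_eq, if_pos hx]

theorem term_le {G : Type} [DecidableEq G] (f : G → ℝ) (E : Finset G) (c : Prop) [Decidable c]
    {k l k' l' : G} (hk : k ∈ E) (hl : l ∈ E) (hk' : k' ∈ E) (hl' : l' ∈ E) :
    ∑ A ∈ E.powerset, (if c then (sg A k * f k) * (sg A l * f l) * (sg A k' * f k') *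
      (sg A l' * f l') else 0) ≤
    (E.powerset.card : ℝ) * ((if k = l then f k ^ 2 else 0) * (if k' = l' then f k' ^ 2 else 0) +
      (if k = k' then f k ^ 2 else 0) * (if l = l' then f l ^ 2 else 0) +
      (if k = l' then f k ^ 2 else 0) * (if l = k' then f l ^ 2 else 0)) := by
  have n1 : ∀ x y : G, 0 ≤ (if x = y then f x ^ 2 else 0) := by
    intro x y
    split_ifs
    · positivity
    · exact le_rfl
  have m1 := mul_nonneg (n1 k l) (n1 k' l')
  have m2 := mul_nonneg (n1 k k') (n1 l l')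
  have m3 := mul_nonneg (n1 k l') (n1 l k')
  have hc0 : (0 : ℝ) ≤ (E.powerset.card : ℝ) := Nat.cast_nonneg _
  by_cases hc : c
  swap
  · simp only [hc, if_false, Finset.sum_const_zero]
    positivity
  simp only [hc, if_true]
  by_cases p1 : k = l ∧ k' = l'
  · obtain ⟨e1, e2⟩ := p1
    subst e1 e2
    have e : ∀ A ∈ E.powerset, (sg A k * f k) * (sg A k * f k) * (sg A k' * f k') *
        (sg A k' * f k') = f k ^ 2 * f k' ^ 2 := by
      intro A _
      have h1 := sg_sq A k
      have h2 := sg_sq A k'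
      calc _ = (sg A k * sg A k) * (sg A k' * sg A k') * (f k ^ 2 * f k' ^ 2) := by ring
        _ = _ := by rw [h1, h2]; ring
    rw [Finset.sum_congr rfl e, Finset.sum_const, nsmul_eq_mul]
    refine mul_le_mul_of_nonneg_left ?_ hc0
    rw [if_pos rfl, if_pos rfl]
    linarith
  by_cases p2 : k = k' ∧ l = l'
  · obtain ⟨e1, e2⟩ := p2
    subst e1 e2
    have e : ∀ A ∈ E.powerset, (sg A k * f k) * (sg A l * f l) * (sg A k * f k) *
        (sg A l * f l) = f k ^ 2 * f l ^ 2 := by
      intro A _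
      have h1 := sg_sq A k
      have h2 := sg_sq A l
      calc _ = (sg A k * sg A k) * (sg A l * sg A l) * (f k ^ 2 * f l ^ 2) := by ring
        _ = _ := by rw [h1, h2]; ring
    rw [Finset.sum_congr rfl e, Finset.sum_const, nsmul_eq_mul]
    refine mul_le_mul_of_nonneg_left ?_ hc0
    have e3 : (if k = k then f k ^ 2 else 0) * (if l = l then f l ^ 2 else 0) =
        f k ^ 2 * f l ^ 2 := by
      rw [if_pos rfl, if_pos rfl]
    linarith
  by_cases p3 : k = l' ∧ l = k'
  · obtain ⟨e1, e2⟩ := p3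
    subst e1 e2
    have e : ∀ A ∈ E.powerset, (sg A k * f k) * (sg A l * f l) * (sg A l * f l) *
        (sg A k * f k) = f k ^ 2 * f l ^ 2 := by
      intro A _
      have h1 := sg_sq A k
      have h2 := sg_sq A l
      calc _ = (sg A k * sg A k) * (sg A l * sg A l) * (f k ^ 2 * f l ^ 2) := by ring
        _ = _ := by rw [h1, h2]; ring
    rw [Finset.sum_congr rfl e, Finset.sum_const, nsmul_eq_mul]
    refine mul_le_mul_of_nonneg_left ?_ hc0
    have e3 : (if k = k then f k ^ 2 else 0) * (if l = l then f l ^ 2 else 0) =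
        f k ^ 2 * f l ^ 2 := by
      rw [if_pos rfl, if_pos rfl]
    linarith
  -- one index occurs exactly once
  have hzero : ∑ A ∈ E.powerset, (sg A k * f k) * (sg A l * f l) * (sg A k' * f k') *
      (sg A l' * f l') = 0 := by
    have odd : ∀ x ∈ E, ∀ y z w : G, y ≠ x → z ≠ x → w ≠ x →
        ∑ A ∈ E.powerset, sg A x * ((f k * f l * f k' * f l') * (sg A y * sg A z * sg A w)) =
          0 := by
      intro x hx y z w hy hz hw
      refine sum_odd hx _ fun A => ?_
      simp only [sg_flip_ne A hy, sg_flip_ne A hz, sg_flip_ne A hw]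
    by_cases a1 : k = l
    · have a2 : k' ≠ l' := fun h => p1 ⟨a1, h⟩
      by_cases a3 : k = k'
      · have := odd l' hl' k l k' (by rw [a3]; exact a2) (by rw [← a1, a3]; exact a2) a2
        rw [← this]
        refine Finset.sum_congr rfl fun A _ => ?_
        ring
      · have := odd k' hk' k l l' a3 (by rw [← a1]; exact a3) (fun h => a2 h.symm)
        rw [← this]
        refine Finset.sum_congr rfl fun A _ => ?_
        ring
    · by_cases a3 : k = k'
      · have a4 : l ≠ l' := fun h => p2 ⟨a3, h⟩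
        have := odd l hl k k' l' a1 (by rw [← a3]; exact a1) (fun h => a4 h.symm)
        rw [← this]
        refine Finset.sum_congr rfl fun A _ => ?_
        ring
      · by_cases a5 : k = l'
        · have a6 : l ≠ k' := fun h => p3 ⟨a5, h⟩
          have := odd l hl k k' l' a1 (fun h => a6 h.symm) (by rw [← a5]; exact a1)
          rw [← this]
          refine Finset.sum_congr rfl fun A _ => ?_
          ring
        · have := odd k hk l k' l' (fun h => a1 h.symm) (fun h => a3 h.symm)
            (fun h => a5 h.symm)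
          rw [← this]
          refine Finset.sum_congr rfl fun A _ => ?_
          ring
  rw [hzero]
  positivity

theorem signs {G : Type} [Group G] [DecidableEq G] (f : G → ℝ) (E : Finset G) :
    ∃ ε : G → ℝ, (∀ g, ε g = 1 ∨ ε g = -1) ∧
      ∑ k ∈ E, ∑ l ∈ E, ∑ k' ∈ E, ∑ l' ∈ E,
        (if k⁻¹ * l = k'⁻¹ * l' then
          (ε k * f k) * (ε l * f l) * (ε k' * f k') * (ε l' * f l') else 0) ≤
      3 * (∑ g ∈ E, f g ^ 2) ^ 2 := by
  set S : ℝ := ∑ g ∈ E, f g ^ 2 with hS
  have key : ∑ A ∈ E.powerset, (∑ k ∈ E, ∑ l ∈ E, ∑ k' ∈ E, ∑ l' ∈ E,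
        (if k⁻¹ * l = k'⁻¹ * l' then
          (sg A k * f k) * (sg A l * f l) * (sg A k' * f k') * (sg A l' * f l') else 0)) ≤
      ∑ A ∈ E.powerset, 3 * S ^ 2 := by
    have h1 : ∑ A ∈ E.powerset, (∑ k ∈ E, ∑ l ∈ E, ∑ k' ∈ E, ∑ l' ∈ E,
        (if k⁻¹ * l = k'⁻¹ * l' then
          (sg A k * f k) * (sg A l * f l) * (sg A k' * f k') * (sg A l' * f l') else 0)) =
        ∑ k ∈ E, ∑ l ∈ E, ∑ k' ∈ E, ∑ l' ∈ E, ∑ A ∈ E.powerset,
        (if k⁻¹ * l = k'⁻¹ * l' then
          (sg A k * f k) * (sg A l * f l) * (sg A k' * f k') * (sg A l' * f l') else 0) := by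
      rw [Finset.sum_comm]
      refine Finset.sum_congr rfl fun k _ => ?_
      rw [Finset.sum_comm]
      refine Finset.sum_congr rfl fun l _ => ?_
      rw [Finset.sum_comm]
      refine Finset.sum_congr rfl fun k' _ => ?_
      rw [Finset.sum_comm]
    rw [h1]
    have h2 : ∑ k ∈ E, ∑ l ∈ E, ∑ k' ∈ E, ∑ l' ∈ E, ∑ A ∈ E.powerset,
        (if k⁻¹ * l = k'⁻¹ * l' then
          (sg A k * f k) * (sg A l * f l) * (sg A k' * f k') * (sg A l' * f l') else 0) ≤
        ∑ k ∈ E, ∑ l ∈ E, ∑ k' ∈ E, ∑ l' ∈ E, (E.powerset.card : ℝ) *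
          ((if k = l then f k ^ 2 else 0) * (if k' = l' then f k' ^ 2 else 0) +
          (if k = k' then f k ^ 2 else 0) * (if l = l' then f l ^ 2 else 0) +
          (if k = l' then f k ^ 2 else 0) * (if l = k' then f l ^ 2 else 0)) := by
      refine Finset.sum_le_sum fun k hk => Finset.sum_le_sum fun l hl =>
        Finset.sum_le_sum fun k' hk' => Finset.sum_le_sum fun l' hl' => ?_
      exact term_le f E _ hk hl hk' hl'
    refine h2.trans (le_of_eq ?_)
    have d := diag E (fun g => f g ^ 2)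
    rw [← hS] at d
    have i1 : ∑ k ∈ E, ∑ l ∈ E, ∑ k' ∈ E, ∑ l' ∈ E,
        (if k = l then f k ^ 2 else 0) * (if k' = l' then f k' ^ 2 else 0) = S ^ 2 := by
      simp_rw [← Finset.mul_sum, ← Finset.sum_mul]
      rw [d]
      ring
    have i2 : ∑ k ∈ E, ∑ l ∈ E, ∑ k' ∈ E, ∑ l' ∈ E,
        (if k = k' then f k ^ 2 else 0) * (if l = l' then f l ^ 2 else 0) = S ^ 2 := by
      have : ∀ k ∈ E, ∑ l ∈ E, ∑ k' ∈ E, ∑ l' ∈ E,
          (if k = k' then f k ^ 2 else 0) * (if l = l' then f l ^ 2 else 0) =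
          (∑ k' ∈ E, if k = k' then f k ^ 2 else 0) * S := by
        intro k _
        rw [Finset.sum_comm]
        simp_rw [← Finset.mul_sum]
        rw [d, Finset.sum_mul]
      rw [Finset.sum_congr rfl this, ← Finset.sum_mul, d]
      ring
    have i3 : ∑ k ∈ E, ∑ l ∈ E, ∑ k' ∈ E, ∑ l' ∈ E,
        (if k = l' then f k ^ 2 else 0) * (if l = k' then f l ^ 2 else 0) = S ^ 2 := by
      simp_rw [← Finset.sum_mul, ← Finset.mul_sum]
      rw [d, ← Finset.sum_mul, d]
      ring
    simp_rw [← Finset.mul_sum, Finset.sum_add_distrib]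
    rw [i1, i2, i3, Finset.sum_const, nsmul_eq_mul]
    ring
  obtain ⟨A, _, hA⟩ := Finset.exists_le_of_sum_le ⟨∅, Finset.empty_mem_powerset E⟩ key
  refine ⟨sg A, fun g => ?_, hA⟩
  unfold sg
  split_ifs
  · exact Or.inr rfl
  · exact Or.inl rfl

end Pool.Agent.TH667.J4952
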