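import Mathlib
import Pool.Agent.TH278.DX.Defs3
set_option autoImplicit false

namespace Pool.Agent.TH667.J5175

open Pool.Agent.TH278.DX

/-- the three values -/
def sv : Fin 3 → ℝ := ![0, 1, -1]

/-- code of a value -/
noncomputable def code (t : ℝ) : Fin 3 := by
  classical exact if t = 0 then 0 else if t = 1 then 1 else 2

theorem sv_code {t : ℝ} (h : t = 0 ∨ t = 1 ∨ t = -1) : sv (code t) = t := by
  unfold code sv
  rcases h with h | h | h
  · subst h; simp
  · subst h; simp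
  · subst h
    have h1 : (-1 : ℝ) ≠ 0 := by norm_num
    have h2 : (-1 : ℝ) ≠ 1 := by norm_num
    simp [h2]

/-- the coefficients -/
noncomputable def al {G : Type} [Group G] (F : G → ℝ) (E K : Finset G) (u : K → K → Fin 3)
    (i : E) (k l : K) : ℝ := by
  classical exact if (k : G) * (l : G)⁻¹ = (i : G) then Real.sqrt (F i) * sv (u k l) else 0

theorem norm_sum_sq {κ : Type} [Fintype κ] (c : κ → ℂ)
    (h : ∀ k k', c k ≠ 0 → c k' ≠ 0 → k = k') : ‖∑ k, c k‖ ^ 2 = ∑ k, ‖c k‖ ^ 2 := by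
  classical
  by_cases h0 : ∃ k0, c k0 ≠ 0
  · obtain ⟨k0, hk0⟩ := h0
    have h1 : ∀ b, b ≠ k0 → c b = 0 := by
      intro b hb
      by_contra hc
      exact hb (h b k0 hc hk0)
    rw [Finset.sum_eq_single k0 (fun b _ hb => h1 b hb) (fun hn => absurd (Finset.mem_univ _) hn),
      Finset.sum_eq_single k0 (fun b _ hb => by rw [h1 b hb]; simp)
        (fun hn => absurd (Finset.mem_univ _) hn)]
  · push Not at h0
    simp [h0]

theorem sum_one {κ : Type} [Fintype κ] (P : κ → Prop) [DecidablePred P]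
    (hP : ∀ l l', P l → P l' → l = l') (f : κ → ℝ) (c : ℝ) (hc : 0 ≤ c)
    (hf : ∀ l, P l → f l ≤ c) : ∑ l, (if P l then f l else 0) ≤ c := by
  classical
  by_cases h0 : ∃ k0, P k0
  · obtain ⟨k0, hk0⟩ := h0
    rw [Finset.sum_eq_single k0 (fun b _ hb => if_neg fun hPb => hb (hP b k0 hPb hk0))
      (fun hn => absurd (Finset.mem_univ _) hn), if_pos hk0]
    exact hf k0 hk0
  · push Not at h0
    simpa [h0] using hc

theorem al_sq {G : Type} [Group G] [DecidableEq G] (F : G → ℝ) (hF : ∀ g, 0 ≤ F g)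
    (E K : Finset G) (u : K → K → Fin 3) (i : E) (k l : K) : al F E K u i k l ^ 2 =
      if (k : G) * (l : G)⁻¹ = (i : G) then F i * sv (u k l) ^ 2 else 0 := by
  unfold al
  split_ifs
  · rw [mul_pow, Real.sq_sqrt (hF _)]
  · simp

theorem al_ne {G : Type} [Group G] {F : G → ℝ} {E K : Finset G} {u : K → K → Fin 3} {i : E}
    {k l : K} (h : al F E K u i k l ≠ 0) : (k : G) * (l : G)⁻¹ = (i : G) := by
  unfold al at h
  by_contra hc
  rw [if_neg hc] at h
  exact h rfl

theorem exists_Y (hkh : KhintchineProp) {G : Type} [Group G] (E : Finset G) (F : G → ℝ)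
    (hF : ∀ g, 0 ≤ F g) (K : Finset G) (r ε : ℝ) (hr : 0 < r) (hε : 0 < ε) :
    ∃ (Q : Type) (_ : Fintype Q) (_ : DecidableEq Q) (_ : Nonempty Q)
      (Y : G → (EuclideanSpace ℂ Q →L[ℂ] EuclideanSpace ℂ Q)),
      (∀ g, ‖Y g‖ ≤ 1) ∧
      (∀ g ∈ E, (1 - ε) * Fintype.card Q ≤ ∑ b : Q, ‖Y g (EuclideanSpace.single b 1)‖ ^ 2) ∧
      ∀ w : G → G → ℝ, (∀ s v, w s v = 0 ∨ w s v = 1 ∨ w s v = -1) →
        (∀ s, ∑ g ∈ E, F g * w s (s * g) ^ 2 ≤ r ^ 2) →
        (∀ v, ∑ g ∈ E, F g * w (v * g⁻¹) v ^ 2 ≤ r ^ 2) →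
        ∀ (x : G) (φ : G → EuclideanSpace ℂ Q), (∀ v, v⁻¹ * x ∉ K → φ v = 0) →
          ∑ k ∈ K, ‖∑ g ∈ E, (((Real.sqrt (F g) * w (x * k⁻¹) (x * k⁻¹ * g) : ℝ)) : ℂ) •
            Y g (φ (x * k⁻¹ * g))‖ ^ 2 ≤ (3 * r) ^ 2 * ∑ k ∈ K, ‖φ (x * k⁻¹)‖ ^ 2 := by
  classical
  have : Fintype {u : K → K → Fin 3 // (∀ k, ∑ i, ∑ l, al F E K u i k l ^ 2 ≤ r ^ 2) ∧
    (∀ l, ∑ i, ∑ k, al F E K u i k l ^ 2 ≤ r ^ 2)} := Fintype.ofFinite _
  obtain ⟨Q, i1, i2, i3, Y', hY1, hY2, hY3⟩ := hkh E K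
    {u : K → K → Fin 3 // (∀ k, ∑ i, ∑ l, al F E K u i k l ^ 2 ≤ r ^ 2) ∧
      (∀ l, ∑ i, ∑ k, al F E K u i k l ^ 2 ≤ r ^ 2)}
    (fun j i k l => ((al F E K j.1 i k l : ℝ) : ℂ)) r ε hr hε
    (by
      intro j z
      have e : ∀ i l, ‖∑ k, ((al F E K j.1 i k l : ℝ) : ℂ) * z k‖ ^ 2 =
          ∑ k, al F E K j.1 i k l ^ 2 * ‖z k‖ ^ 2 := by
        intro i l
        rw [norm_sum_sq]
        · refine Finset.sum_congr rfl fun k _ => ?_
          rw [norm_mul, mul_pow, Complex.norm_real, Real.norm_eq_abs, sq_abs]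
        · intro k k' h1 h2
          have a1 := al_ne (F := F) (u := j.1) (fun h => h1 (by rw [h]; simp))
          have a2 := al_ne (F := F) (u := j.1) (fun h => h2 (by rw [h]; simp))
          exact Subtype.ext (mul_right_cancel (a1.trans a2.symm))
      simp_rw [e]
      calc ∑ i, ∑ l, ∑ k, al F E K j.1 i k l ^ 2 * ‖z k‖ ^ 2
          = ∑ k, (∑ i, ∑ l, al F E K j.1 i k l ^ 2) * ‖z k‖ ^ 2 := by
            simp_rw [Finset.sum_mul]
            exact (Finset.sum_congr rfl fun i _ => Finset.sum_comm).trans Finset.sum_comm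
        _ ≤ ∑ k, r ^ 2 * ‖z k‖ ^ 2 :=
            Finset.sum_le_sum fun k _ => mul_le_mul_of_nonneg_right (j.2.1 k) (by positivity)
        _ = r ^ 2 * ∑ k, ‖z k‖ ^ 2 := by rw [Finset.mul_sum])
    (by
      intro j z
      have e : ∀ i k, ‖∑ l, ((al F E K j.1 i k l : ℝ) : ℂ) * z l‖ ^ 2 =
          ∑ l, al F E K j.1 i k l ^ 2 * ‖z l‖ ^ 2 := by
        intro i k
        rw [norm_sum_sq]
        · refine Finset.sum_congr rfl fun l _ => ?_
          rw [norm_mul, mul_pow, Complex.norm_real, Real.norm_eq_abs, sq_abs]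
        · intro l l' h1 h2
          have a1 := al_ne (F := F) (u := j.1) (fun h => h1 (by rw [h]; simp))
          have a2 := al_ne (F := F) (u := j.1) (fun h => h2 (by rw [h]; simp))
          exact Subtype.ext (inv_injective (mul_left_cancel (a1.trans a2.symm)))
      simp_rw [e]
      calc ∑ i, ∑ k, ∑ l, al F E K j.1 i k l ^ 2 * ‖z l‖ ^ 2
          = ∑ l, (∑ i, ∑ k, al F E K j.1 i k l ^ 2) * ‖z l‖ ^ 2 := by
            simp_rw [Finset.sum_mul]
            exact (Finset.sum_congr rfl fun i _ => Finset.sum_comm).trans Finset.sum_comm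
        _ ≤ ∑ l, r ^ 2 * ‖z l‖ ^ 2 :=
            Finset.sum_le_sum fun l _ => mul_le_mul_of_nonneg_right (j.2.2 l) (by positivity)
        _ = r ^ 2 * ∑ l, ‖z l‖ ^ 2 := by rw [Finset.mul_sum])
  refine ⟨Q, i1, i2, i3, fun g => if h : g ∈ E then Y' ⟨g, h⟩ else 0, ?_, ?_, ?_⟩
  · intro g
    by_cases h : g ∈ E
    · simp only [h, dif_pos]
      exact hY1 _
    · simp [h]
  · intro g hg
    simp only [hg, dif_pos]
    exact hY2 ⟨g, hg⟩
  · intro w hw hr1 hr2 x φ hφ
    set u : K → K → Fin 3 := fun k l => code (w (x * (k : G)⁻¹) (x * (l : G)⁻¹)) with hu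
    have hsv : ∀ k l : K, sv (u k l) = w (x * (k : G)⁻¹) (x * (l : G)⁻¹) := by
      intro k l
      rw [hu]
      exact sv_code (hw _ _)
    have hrow : ∀ k, ∑ i, ∑ l, al F E K u i k l ^ 2 ≤ r ^ 2 := by
      intro k
      refine le_trans ?_ (hr1 (x * (k : G)⁻¹))
      rw [← Finset.sum_coe_sort E]
      refine Finset.sum_le_sum fun i _ => ?_
      simp_rw [al_sq F hF]
      refine sum_one _ ?_ _ _ (mul_nonneg (hF _) (sq_nonneg _)) ?_
      · intro l l' h1 h2
        exact Subtype.ext (inv_injective (mul_left_cancel (h1.trans h2.symm)))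
      · intro l hl
        rw [hsv]
        have : x * (k : G)⁻¹ * (i : G) = x * (l : G)⁻¹ := by
          rw [← hl]; group
        rw [this]
    have hcol : ∀ l, ∑ i, ∑ k, al F E K u i k l ^ 2 ≤ r ^ 2 := by
      intro l
      refine le_trans ?_ (hr2 (x * (l : G)⁻¹))
      rw [← Finset.sum_coe_sort E]
      refine Finset.sum_le_sum fun i _ => ?_
      simp_rw [al_sq F hF]
      refine sum_one _ ?_ _ _ (mul_nonneg (hF _) (sq_nonneg _)) ?_
      · intro k k' h1 h2
        exact Subtype.ext (mul_right_cancel (h1.trans h2.symm))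
      · intro k hk
        rw [hsv]
        have : x * (l : G)⁻¹ * (i : G)⁻¹ = x * (k : G)⁻¹ := by
          rw [← hk]; group
        rw [this]
    have h3 := hY3 ⟨u, hrow, hcol⟩ (fun l => φ (x * (l : G)⁻¹))
    rw [← Finset.sum_coe_sort K, ← Finset.sum_coe_sort K]
    refine le_trans (le_of_eq ?_) h3
    refine Finset.sum_congr rfl fun k _ => ?_
    congr 2
    rw [← Finset.sum_coe_sort E]
    refine Finset.sum_congr rfl fun i _ => ?_
    have hi : (i : G) ∈ E := i.2
    simp only [hi, dif_pos]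
    by_cases hl : (i : G)⁻¹ * (k : G) ∈ K
    · rw [Finset.sum_eq_single (⟨(i : G)⁻¹ * (k : G), hl⟩ : K)]
      · have e1 : al F E K u i k ⟨(i : G)⁻¹ * (k : G), hl⟩ =
            Real.sqrt (F i) * w (x * (k : G)⁻¹) (x * (k : G)⁻¹ * (i : G)) := by
          unfold al
          have c1 : (k : G) * ((i : G)⁻¹ * (k : G))⁻¹ = (i : G) := by group
          rw [if_pos c1, hsv]
          have c2 : x * ((i : G)⁻¹ * (k : G))⁻¹ = x * (k : G)⁻¹ * (i : G) := by group
          rw [c2]
        have e2 : x * ((i : G)⁻¹ * (k : G))⁻¹ = x * (k : G)⁻¹ * (i : G) := by group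
        simp only [e1, e2]
      · intro l _ hne
        have : al F E K u i k l = 0 := by
          by_contra hc
          have := al_ne hc
          apply hne
          apply Subtype.ext
          show (l : G) = (i : G)⁻¹ * (k : G)
          rw [← this]; group
        rw [this]
        simp
      · intro hn
        exact absurd (Finset.mem_univ _) hn
    · have z1 : φ (x * (k : G)⁻¹ * (i : G)) = 0 := by
        apply hφ
        have : (x * (k : G)⁻¹ * (i : G))⁻¹ * x = (i : G)⁻¹ * (k : G) := by group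
        rw [this]
        exact hl
      rw [z1, map_zero, smul_zero]
      symm
      refine Finset.sum_eq_zero fun l _ => ?_
      have : al F E K u i k l = 0 := by
        by_contra hc
        have := al_ne hc
        apply hl
        have e3 : (i : G)⁻¹ * (k : G) = (l : G) := by rw [← this]; group
        rw [e3]
        exact l.2
      rw [this]
      simp

end Pool.Agent.TH667.J5175
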