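import Mathlib

/-!
The replacement lemma on finite product spaces.
-/

set_option autoImplicit false

open Finset

namespace Pool.Agent.TH974.IH

namespace GRLaux

/-- the number of essential members of a finite family of subspaces is at most the codimension of
the intersection -/
theorem ess_card {F : Type} [Field F] {X : Type} [Fintype X] {I : Type} [DecidableEq I]
    (W : Submodule F (X → F)) (U : I → Submodule F (X → F)) (A : Finset I) :
    (open Classical in (A.filter fun i => ¬ (W ⊓ ⨅ j ∈ A.erase i, U j ≤ U i)).card) +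
      Module.finrank F (W ⊓ ⨅ i ∈ A, U i : Submodule F (X → F)) ≤ Module.finrank F W := by
  classical
  induction A using Finset.induction_on with
  | empty =>
    simp only [Finset.filter_empty, Finset.card_empty, zero_add]
    exact Submodule.finrank_mono inf_le_left
  | insert a A ha ih =>
    have h1 : ((insert a A).filter fun i => ¬ (W ⊓ ⨅ j ∈ (insert a A).erase i, U j ≤ U i)).card ≤
        (A.filter fun i => ¬ (W ⊓ ⨅ j ∈ A.erase i, U j ≤ U i)).card +
          (if ¬ (W ⊓ ⨅ j ∈ A, U j ≤ U a) then 1 else 0) := by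
      rw [Finset.filter_insert]
      rw [Finset.erase_insert ha]
      have h2 : (A.filter fun i => ¬ (W ⊓ ⨅ j ∈ (insert a A).erase i, U j ≤ U i)).card ≤
          (A.filter fun i => ¬ (W ⊓ ⨅ j ∈ A.erase i, U j ≤ U i)).card := by
        apply Finset.card_le_card
        intro i hi
        rw [Finset.mem_filter] at hi ⊢
        refine ⟨hi.1, fun h => hi.2 (le_trans ?_ h)⟩
        refine inf_le_inf_left _ ?_
        exact biInf_mono fun j hj => Finset.erase_subset_erase _ (Finset.subset_insert _ _) hj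
      split_ifs with h3
      · simpa using h2
      · refine (Finset.card_insert_le _ _).trans ?_
        omega
    have h4 : (if ¬ (W ⊓ ⨅ j ∈ A, U j ≤ U a) then 1 else 0) +
        Module.finrank F (W ⊓ ⨅ i ∈ insert a A, U i : Submodule F (X → F)) ≤
        Module.finrank F (W ⊓ ⨅ i ∈ A, U i : Submodule F (X → F)) := by
      have h5 : (W ⊓ ⨅ i ∈ insert a A, U i) ≤ (W ⊓ ⨅ i ∈ A, U i) :=
        inf_le_inf_left _ (biInf_mono fun j hj => Finset.mem_insert_of_mem hj)
      split_ifs with h3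
      · simpa using Submodule.finrank_mono h5
      · have h6 : (W ⊓ ⨅ i ∈ insert a A, U i) < (W ⊓ ⨅ i ∈ A, U i) := by
          refine lt_of_le_of_ne h5 fun h => h3 ?_
          rw [← h]
          refine inf_le_right.trans ?_
          exact biInf_le _ (Finset.mem_insert_self _ _)
        have := Submodule.finrank_lt_finrank_of_lt h6
        omega
    omega

variable {I : Type} [Fintype I] [DecidableEq I] {Ω : I → Type} [∀ i, Fintype (Ω i)]
    [∀ i, DecidableEq (Ω i)]

theorem sum_prod (f : ∀ i, Ω i → ℝ) : ∑ ω : (∀ i, Ω i), ∏ j, f j (ω j) = ∏ j, ∑ x, f j x := by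
  rw [Finset.prod_univ_sum, Fintype.piFinset_univ]

variable (w : ∀ i, Ω i → ℝ) (J : Finset I) (S R : ∀ i, Finset (Ω i))

/-- the factors -/
noncomputable def fac (A : Finset I) (j : I) (y : Ω j) : ℝ :=
  if j ∈ A then (∑ x ∈ S j, w j x) * ((if y ∈ R j then w j y else 0) / ∑ x ∈ R j, w j x)
  else if j ∈ J then (if y ∈ S j then 0 else w j y) else w j y

/-- the masses -/
noncomputable def mA (A : Finset I) (ω' : ∀ i, Ω i) : ℝ := ∏ j, fac w J S R A j (ω' j)

variable {w J S R}

theorem fac_nonneg (hw : ∀ i x, 0 ≤ w i x) (A : Finset I) (j : I) (y : Ω j) :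
    0 ≤ fac w J S R A j y := by
  unfold fac
  have hS : 0 ≤ ∑ x ∈ S j, w j x := Finset.sum_nonneg fun x _ => hw j x
  have hR : 0 ≤ ∑ x ∈ R j, w j x := Finset.sum_nonneg fun x _ => hw j x
  have h1 : 0 ≤ (if y ∈ R j then w j y else 0) := by
    split_ifs
    · exact hw j y
    · exact le_rfl
  have := hw j y
  split_ifs <;> positivity

theorem mA_nonneg (hw : ∀ i x, 0 ≤ w i x) (A : Finset I) (ω' : ∀ i, Ω i) :
    0 ≤ mA w J S R A ω' :=
  Finset.prod_nonneg fun j _ => fac_nonneg hw A j _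

theorem sum_fac (hw1 : ∀ i, ∑ x, w i x = 1) (hR : ∀ i, 0 < ∑ x ∈ R i, w i x) (A : Finset I)
    (j : I) : ∑ y, fac w J S R A j y =
      if j ∈ A then ∑ x ∈ S j, w j x else if j ∈ J then 1 - ∑ x ∈ S j, w j x else 1 := by
  unfold fac
  by_cases h1 : j ∈ A
  · simp only [h1, if_true]
    rw [← Finset.mul_sum, ← Finset.sum_div, Finset.sum_ite_mem, Finset.univ_inter,
      div_self (hR j).ne', mul_one]
  · by_cases h2 : j ∈ J
    · simp only [h1, h2, if_true, if_false]
      have h3 : ∑ y, (if y ∈ S j then 0 else w j y) = ∑ y, w j y - ∑ x ∈ S j, w j x := by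
        have h4 : ∑ x ∈ S j, w j x = ∑ y, (if y ∈ S j then w j y else 0) := by
          rw [Finset.sum_ite_mem, Finset.univ_inter]
        rw [h4, ← Finset.sum_sub_distrib]
        refine Finset.sum_congr rfl fun y _ => ?_
        split_ifs <;> simp
      rw [h3, hw1]
    · simp only [h1, h2, if_false]
      exact hw1 j

theorem sum_mA (hw1 : ∀ i, ∑ x, w i x = 1) (hR : ∀ i, 0 < ∑ x ∈ R i, w i x) {A : Finset I}
    (hA : A ⊆ J) : ∑ ω', mA w J S R A ω' =
      (∏ j ∈ A, ∑ x ∈ S j, w j x) * ∏ j ∈ J \ A, (1 - ∑ x ∈ S j, w j x) := by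
  unfold mA
  rw [sum_prod]
  have h1 : ∀ j, ∑ y, fac w J S R A j y = (if j ∈ A then ∑ x ∈ S j, w j x else 1) *
      (if j ∈ J \ A then 1 - ∑ x ∈ S j, w j x else 1) := by
    intro j
    rw [sum_fac hw1 hR]
    by_cases h2 : j ∈ A
    · simp [h2]
    · by_cases h3 : j ∈ J
      · simp [h2, h3]
      · simp [h2, h3]
  simp only [h1]
  rw [Finset.prod_mul_distrib, Finset.prod_ite_mem, Finset.prod_ite_mem, Finset.univ_inter,
    Finset.univ_inter]

theorem sum_nu (hw1 : ∀ i, ∑ x, w i x = 1) (hR : ∀ i, 0 < ∑ x ∈ R i, w i x) :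
    ∑ ω' : (∀ i, Ω i), ∑ A ∈ J.powerset, mA w J S R A ω' = 1 := by
  rw [Finset.sum_comm]
  have h1 : ∀ A ∈ J.powerset, ∑ ω' : (∀ i, Ω i), mA w J S R A ω' =
      (∏ j ∈ A, ∑ x ∈ S j, w j x) * ∏ j ∈ J \ A, (1 - ∑ x ∈ S j, w j x) := fun A hA =>
    sum_mA hw1 hR (Finset.mem_powerset.1 hA)
  rw [Finset.sum_congr rfl h1, ← Finset.prod_add]
  refine Finset.prod_eq_one fun j _ => ?_
  ring

variable (w R) in
/-- transition weights -/
noncomputable def tr (A : Finset I) (j : I) (x y : Ω j) : ℝ :=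
  if j ∈ A then w j x * ((if y ∈ R j then w j y else 0) / ∑ x ∈ R j, w j x)
  else if x = y then w j x else 0

theorem sum_tr (hR : ∀ i, 0 < ∑ x ∈ R i, w i x) (A : Finset I) (j : I) (x : Ω j) :
    ∑ y, tr w R A j x y = w j x := by
  unfold tr
  by_cases h1 : j ∈ A
  · simp only [h1, if_true]
    rw [← Finset.mul_sum, ← Finset.sum_div, Finset.sum_ite_mem, Finset.univ_inter,
      div_self (hR j).ne', mul_one]
  · simp [h1]

theorem tr_nonneg (hw : ∀ i x, 0 ≤ w i x) (A : Finset I) (j : I) (x y : Ω j) :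
    0 ≤ tr w R A j x y := by
  unfold tr
  have hR : 0 ≤ ∑ x ∈ R j, w j x := Finset.sum_nonneg fun x _ => hw j x
  split_ifs
  · exact mul_nonneg (hw j x) (div_nonneg (hw j y) hR)
  · simp
  · exact hw j x
  · exact le_rfl

theorem prob_eq (hR : ∀ i, 0 < ∑ x ∈ R i, w i x) (A : Finset I) (ω : ∀ i, Ω i) :
    ∏ j, w j (ω j) = ∑ ω' : (∀ i, Ω i), ∏ j, tr w R A j (ω j) (ω' j) := by
  rw [sum_prod (fun j y => tr w R A j (ω j) y)]
  exact Finset.prod_congr rfl fun j _ => (sum_tr hR A j (ω j)).symm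

theorem sum_tr_back {A : Finset I} (hA : A ⊆ J) (ω' : ∀ i, Ω i) :
    ∑ ω : (∀ i, Ω i), (if J.filter (fun j => ω j ∈ S j) = A then
      ∏ j, tr w R A j (ω j) (ω' j) else 0) = mA w J S R A ω' := by
  have h1 : ∀ ω : (∀ i, Ω i), (if J.filter (fun j => ω j ∈ S j) = A then
      ∏ j, tr w R A j (ω j) (ω' j) else 0) =
      ∏ j, ((if j ∈ J then (if (ω j ∈ S j ↔ j ∈ A) then 1 else 0) else 1) *
        tr w R A j (ω j) (ω' j)) := by
    intro ω
    rw [Finset.prod_mul_distrib]
    by_cases h : J.filter (fun j => ω j ∈ S j) = A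
    · have h2 : ∏ j, (if j ∈ J then (if (ω j ∈ S j ↔ j ∈ A) then (1 : ℝ) else 0) else 1) = 1 := by
        refine Finset.prod_eq_one fun j _ => ?_
        by_cases h3 : j ∈ J
        · have : (ω j ∈ S j ↔ j ∈ A) := by
            rw [← h, Finset.mem_filter]
            tauto
          simp [h3, this]
        · simp [h3]
      rw [if_pos h, h2, one_mul]
    · have h2 : ∃ j ∈ J, ¬ (ω j ∈ S j ↔ j ∈ A) := by
        by_contra hcon
        push Not at hcon
        apply h
        ext j
        rw [Finset.mem_filter]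
        constructor
        · rintro ⟨h3, h4⟩
          exact (hcon j h3).1 h4
        · intro h3
          exact ⟨hA h3, (hcon j (hA h3)).2 h3⟩
      obtain ⟨j, h3, h4⟩ := h2
      have h5 : ∏ j, (if j ∈ J then (if (ω j ∈ S j ↔ j ∈ A) then (1 : ℝ) else 0) else 1) = 0 := by
        refine Finset.prod_eq_zero (Finset.mem_univ j) ?_
        rw [if_pos h3, if_neg h4]
      rw [if_neg h, h5, zero_mul]
  simp only [h1]
  rw [sum_prod (fun j x => (if j ∈ J then (if (x ∈ S j ↔ j ∈ A) then 1 else 0) else 1) *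
        tr w R A j x (ω' j))]
  unfold mA
  refine Finset.prod_congr rfl fun j _ => ?_
  unfold tr fac
  by_cases h2 : j ∈ A
  · have h3 : j ∈ J := hA h2
    simp only [h2, h3, if_true, iff_true]
    rw [Finset.sum_mul]
    have h4 : ∀ x : Ω j, ((if x ∈ S j then (1 : ℝ) else 0) *
        (w j x * ((if ω' j ∈ R j then w j (ω' j) else 0) / ∑ x ∈ R j, w j x))) =
        if x ∈ S j then (w j x * ((if ω' j ∈ R j then w j (ω' j) else 0) / ∑ x ∈ R j, w j x))
          else 0 := by
      intro x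
      split_ifs <;> simp
    simp only [h4]
    rw [Finset.sum_ite_mem, Finset.univ_inter]
  · by_cases h3 : j ∈ J
    · simp only [h2, h3, if_true, if_false, iff_false]
      rw [Finset.sum_eq_single (ω' j)]
      · split_ifs <;> simp_all
      · intro x _ hx
        rw [if_neg hx, mul_zero]
      · intro h
        exact absurd (Finset.mem_univ _) h
    · simp only [h2, h3, if_false, one_mul]
      rw [Finset.sum_eq_single (ω' j)]
      · simp
      · intro x _ hx
        rw [if_neg hx]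
      · intro h
        exact absurd (Finset.mem_univ _) h

/-- adding an element to `A` -/
theorem mA_insert {A : Finset I} {i : I} (hi : i ∈ J) (hiA : i ∉ A) (hSR : ∀ i, Disjoint (S i) (R i))
    (ω' : ∀ i, Ω i) (hω : ω' i ∈ R i) :
    mA w J S R (insert i A) ω' =
      ((∑ x ∈ S i, w i x) / ∑ x ∈ R i, w i x) * mA w J S R A ω' := by
  unfold mA
  rw [← Finset.mul_prod_erase _ _ (Finset.mem_univ i), ← Finset.mul_prod_erase _ _ (Finset.mem_univ i),
    ← mul_assoc]
  congr 1
  · unfold fac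
    have h1 : ω' i ∉ S i := fun h => Finset.disjoint_left.1 (hSR i) h hω
    simp only [Finset.mem_insert_self, if_true, hω, hiA, if_false, hi, h1]
    ring
  · refine Finset.prod_congr rfl fun j hj => ?_
    have hji : j ≠ i := Finset.ne_of_mem_erase hj
    unfold fac
    simp only [Finset.mem_insert, hji, false_or]

end GRLaux

open GRLaux in
theorem GRL {I : Type} [Fintype I] [DecidableEq I] {Ω : I → Type} [∀ i, Fintype (Ω i)]
    [∀ i, DecidableEq (Ω i)] (w : ∀ i, Ω i → ℝ) (hw : ∀ i x, 0 ≤ w i x)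
    (hw1 : ∀ i, ∑ x, w i x = 1) (J : Finset I) (S R : ∀ i, Finset (Ω i))
    (hSR : ∀ i, Disjoint (S i) (R i)) (hR : ∀ i, 0 < ∑ x ∈ R i, w i x) (ε : ℝ)
    (hε : ∀ i, ε * (∑ x ∈ S i, w i x + ∑ x ∈ R i, w i x) ≤ ∑ x ∈ S i, w i x) :
    ∃ ν : (∀ i, Ω i) → ℝ, (∀ ω', 0 ≤ ν ω') ∧ ∑ ω', ν ω' = 1 ∧
      ∀ (F : Type) [Field F] (X : Type) [Fintype X]
        (W : (∀ i, Ω i) → Submodule F (X → F)) (U : (∀ i, Ω i) → I → Submodule F (X → F))
        (NF : I → Set (∀ i, Ω i)),
        (∀ ω ω' : ∀ i, Ω i, (∀ i, (i ∈ J ∧ ω i ∈ S i ∧ ω' i ∈ R i) ∨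
            (¬ (i ∈ J ∧ ω i ∈ S i) ∧ ω' i = ω i)) →
          ∀ i ∈ J, ω i ∈ R i → ω ∈ NF i →
            ¬ (W ω' ⊓ ⨅ j ∈ J.filter (fun j => ω j ∈ S j), U ω' j ≤ U ω' i)) →
        ε * ∑ i ∈ J, ∑ ω : ∀ i, Ω i, (open Classical in
          if ω i ∈ R i ∧ ω ∈ NF i then ∏ j, w j (ω j) else 0) ≤
          ∑ ω', ν ω' * ((Module.finrank F (W ω') : ℝ) -
            Module.finrank F (W ω' ⊓ ⨅ i ∈ J, U ω' i : Submodule F (X → F))) := by
  classical
  refine ⟨fun ω' => ∑ A ∈ J.powerset, mA w J S R A ω',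
    fun ω' => Finset.sum_nonneg fun A _ => mA_nonneg hw A ω', sum_nu hw1 hR, ?_⟩
  intro F _ X _ W U NF hyp
  -- the codimension is nonnegative
  have hcod : ∀ (ω' : ∀ i, Ω i) (A : Finset I), A ⊆ J →
      (Module.finrank F (W ω' ⊓ ⨅ i ∈ J, U ω' i : Submodule F (X → F)) : ℝ) ≤
        Module.finrank F (W ω' ⊓ ⨅ i ∈ A, U ω' i : Submodule F (X → F)) := by
    intro ω' A hA
    exact_mod_cast Submodule.finrank_mono
      (inf_le_inf_left _ (biInf_mono fun j hj => hA hj))
  have hRHS : ∀ ω' : ∀ i, Ω i, 0 ≤ (Module.finrank F (W ω') : ℝ) -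
      Module.finrank F (W ω' ⊓ ⨅ i ∈ J, U ω' i : Submodule F (X → F)) := by
    intro ω'
    have h : Module.finrank F (W ω' ⊓ ⨅ i ∈ J, U ω' i : Submodule F (X → F)) ≤
        Module.finrank F (W ω') := Submodule.finrank_mono inf_le_left
    exact sub_nonneg.2 (by exact_mod_cast h)
  have hP : ∀ ω : ∀ i, Ω i, 0 ≤ ∏ j, w j (ω j) := fun ω => Finset.prod_nonneg fun j _ => hw j _
  -- essentiality
  let ess : (∀ i, Ω i) → Finset I → I → Prop := fun ω' A i =>
    ¬ (W ω' ⊓ ⨅ j ∈ A, U ω' j ≤ U ω' i)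
  -- step 1
  have step1 : ∀ i ∈ J, ∀ A ∈ J.powerset,
      ∑ ω : (∀ i, Ω i), (if J.filter (fun j => ω j ∈ S j) = A ∧ ω i ∈ R i ∧ ω ∈ NF i then
        ∏ j, w j (ω j) else 0) ≤
      ∑ ω' : (∀ i, Ω i), (if ω' i ∈ R i ∧ i ∉ A ∧ ess ω' A i then mA w J S R A ω' else 0) := by
    intro i hi A hA
    have hA' := Finset.mem_powerset.1 hA
    have h1 : ∀ ω : (∀ i, Ω i),
        (if J.filter (fun j => ω j ∈ S j) = A ∧ ω i ∈ R i ∧ ω ∈ NF i then
          ∏ j, w j (ω j) else 0) ≤
        ∑ ω' : (∀ i, Ω i), (if ω' i ∈ R i ∧ i ∉ A ∧ ess ω' A i then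
          (if J.filter (fun j => ω j ∈ S j) = A then ∏ j, tr w R A j (ω j) (ω' j) else 0)
          else 0) := by
      intro ω
      by_cases hc : J.filter (fun j => ω j ∈ S j) = A ∧ ω i ∈ R i ∧ ω ∈ NF i
      · rw [if_pos hc]
        obtain ⟨hc1, hc2, hc3⟩ := hc
        rw [prob_eq hR A ω]
        refine Finset.sum_le_sum fun ω' _ => ?_
        by_cases h0 : ∏ j, tr w R A j (ω j) (ω' j) = 0
        · rw [h0]
          split_ifs <;> exact le_rfl
        · have h2 : ∀ j, tr w R A j (ω j) (ω' j) ≠ 0 := fun j =>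
            Finset.prod_ne_zero_iff.1 h0 j (Finset.mem_univ j)
          have hiA : i ∉ A := by
            rw [← hc1, Finset.mem_filter]
            rintro ⟨-, h3⟩
            exact Finset.disjoint_left.1 (hSR i) h3 hc2
          have hrel : ∀ j, (j ∈ J ∧ ω j ∈ S j ∧ ω' j ∈ R j) ∨
              (¬ (j ∈ J ∧ ω j ∈ S j) ∧ ω' j = ω j) := by
            intro j
            have h3 := h2 j
            unfold tr at h3
            by_cases hj : j ∈ A
            · left
              have hj' := hj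
              rw [← hc1, Finset.mem_filter] at hj'
              refine ⟨hj'.1, hj'.2, ?_⟩
              by_contra h4
              rw [if_pos hj, if_neg h4, zero_div, mul_zero] at h3
              exact h3 rfl
            · right
              have hj' := hj
              rw [← hc1, Finset.mem_filter] at hj'
              refine ⟨hj', ?_⟩
              by_contra h4
              rw [if_neg hj, if_neg (fun h => h4 h.symm)] at h3
              exact h3 rfl
          have hωi : ω' i = ω i := by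
            rcases hrel i with h3 | h3
            · exact absurd hc2 (fun h => Finset.disjoint_left.1 (hSR i) h3.2.1 h)
            · exact h3.2
          have hess : ess ω' A i := by
            have := hyp ω ω' hrel i hi hc2 hc3
            rw [hc1] at this
            exact this
          rw [if_pos ⟨by rw [hωi]; exact hc2, hiA, hess⟩, if_pos hc1]
      · rw [if_neg hc]
        refine Finset.sum_nonneg fun ω' _ => ?_
        split_ifs
        · exact Finset.prod_nonneg fun j _ => tr_nonneg hw A j _ _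
        · exact le_rfl
        · exact le_rfl
    refine (Finset.sum_le_sum fun ω _ => h1 ω).trans ?_
    rw [Finset.sum_comm]
    refine Finset.sum_le_sum fun ω' _ => ?_
    split_ifs with hc
    · rw [sum_tr_back hA']
    · simp
  -- step 2: sum over A
  have step2 : ∀ i ∈ J, ∑ ω : (∀ i, Ω i), (if ω i ∈ R i ∧ ω ∈ NF i then ∏ j, w j (ω j) else 0) ≤
      ∑ A ∈ J.powerset, ∑ ω' : (∀ i, Ω i),
        (if ω' i ∈ R i ∧ i ∉ A ∧ ess ω' A i then mA w J S R A ω' else 0) := by
    intro i hi
    refine le_trans (le_of_eq ?_) (Finset.sum_le_sum fun A hA => step1 i hi A hA)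
    rw [Finset.sum_comm]
    refine Finset.sum_congr rfl fun ω _ => ?_
    rw [Finset.sum_eq_single (J.filter (fun j => ω j ∈ S j))]
    · simp
    · intro A _ hA
      rw [if_neg]
      rintro ⟨h1, -⟩
      exact hA h1.symm
    · intro h
      exact absurd (Finset.mem_powerset.2 (Finset.filter_subset _ _)) h
  rcases le_or_gt ε 0 with hε0 | hε0
  · have h1 : 0 ≤ ∑ i ∈ J, ∑ ω : (∀ i, Ω i),
        (if ω i ∈ R i ∧ ω ∈ NF i then ∏ j, w j (ω j) else 0) := by
      refine Finset.sum_nonneg fun i _ => Finset.sum_nonneg fun ω _ => ?_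
      split_ifs
      · exact hP ω
      · exact le_rfl
    refine le_trans (mul_nonpos_of_nonpos_of_nonneg hε0 h1) ?_
    exact Finset.sum_nonneg fun ω' _ => mul_nonneg
      (Finset.sum_nonneg fun A _ => mA_nonneg hw A ω') (hRHS ω')
  · -- step 3: comparison of the masses
    have step3 : ∀ i ∈ J, ∀ A ∈ J.powerset, ∀ ω' : (∀ i, Ω i),
        ε * (if ω' i ∈ R i ∧ i ∉ A ∧ ess ω' A i then mA w J S R A ω' else 0) ≤
        (if i ∉ A ∧ ess ω' A i then mA w J S R (insert i A) ω' else 0) := by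
      intro i hi A hA ω'
      by_cases hc : ω' i ∈ R i ∧ i ∉ A ∧ ess ω' A i
      · rw [if_pos hc, if_pos hc.2, mA_insert hi hc.2.1 hSR ω' hc.1]
        refine mul_le_mul_of_nonneg_right ?_ (mA_nonneg hw A ω')
        rw [le_div_iff₀ (hR i)]
        have h1 := hε i
        have h2 : 0 ≤ ∑ x ∈ S i, w i x := Finset.sum_nonneg fun x _ => hw i x
        nlinarith
      · rw [if_neg hc, mul_zero]
        split_ifs
        · exact mA_nonneg hw _ ω'
        · exact le_rfl
    have step4 : ε * ∑ i ∈ J, ∑ ω : (∀ i, Ω i),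
        (if ω i ∈ R i ∧ ω ∈ NF i then ∏ j, w j (ω j) else 0) ≤
        ∑ i ∈ J, ∑ A ∈ J.powerset, ∑ ω' : (∀ i, Ω i),
          (if i ∉ A ∧ ess ω' A i then mA w J S R (insert i A) ω' else 0) := by
      calc ε * ∑ i ∈ J, ∑ ω : (∀ i, Ω i),
            (if ω i ∈ R i ∧ ω ∈ NF i then ∏ j, w j (ω j) else 0)
          ≤ ε * ∑ i ∈ J, ∑ A ∈ J.powerset, ∑ ω' : (∀ i, Ω i),
            (if ω' i ∈ R i ∧ i ∉ A ∧ ess ω' A i then mA w J S R A ω' else 0) :=
            mul_le_mul_of_nonneg_left (Finset.sum_le_sum step2) hε0.le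
        _ = ∑ i ∈ J, ∑ A ∈ J.powerset, ∑ ω' : (∀ i, Ω i),
            ε * (if ω' i ∈ R i ∧ i ∉ A ∧ ess ω' A i then mA w J S R A ω' else 0) := by
            simp only [Finset.mul_sum]
        _ ≤ _ := Finset.sum_le_sum fun i hi => Finset.sum_le_sum fun A hA =>
            Finset.sum_le_sum fun ω' _ => step3 i hi A hA ω'
    refine step4.trans ?_
    -- step 5: reindexing
    have step5 : ∑ i ∈ J, ∑ A ∈ J.powerset, ∑ ω' : (∀ i, Ω i),
          (if i ∉ A ∧ ess ω' A i then mA w J S R (insert i A) ω' else 0) =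
        ∑ ω' : (∀ i, Ω i), ∑ A ∈ J.powerset,
          mA w J S R A ω' * ((A.filter fun i => ess ω' (A.erase i) i).card : ℝ) := by
      have h1 : ∀ i ∈ J, ∀ ω' : (∀ i, Ω i), ∑ A ∈ J.powerset,
          (if i ∉ A ∧ ess ω' A i then mA w J S R (insert i A) ω' else 0) =
          ∑ A ∈ J.powerset, (if i ∈ A ∧ ess ω' (A.erase i) i then mA w J S R A ω' else 0) := by
        intro i hi ω'
        rw [← Finset.sum_filter, ← Finset.sum_filter]
        refine Finset.sum_bij' (fun A _ => insert i A) (fun A _ => A.erase i) ?_ ?_ ?_ ?_ ?_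
        · intro A hA
          rw [Finset.mem_filter, Finset.mem_powerset] at hA ⊢
          refine ⟨Finset.insert_subset hi hA.1, Finset.mem_insert_self _ _, ?_⟩
          rw [Finset.erase_insert hA.2.1]
          exact hA.2.2
        · intro A hA
          rw [Finset.mem_filter, Finset.mem_powerset] at hA ⊢
          exact ⟨(Finset.erase_subset _ _).trans hA.1, Finset.notMem_erase _ _, hA.2.2⟩
        · intro A hA
          rw [Finset.mem_filter] at hA
          exact Finset.erase_insert hA.2.1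
        · intro A hA
          rw [Finset.mem_filter] at hA
          exact Finset.insert_erase hA.2.1
        · intro A hA
          rfl
      calc ∑ i ∈ J, ∑ A ∈ J.powerset, ∑ ω' : (∀ i, Ω i),
            (if i ∉ A ∧ ess ω' A i then mA w J S R (insert i A) ω' else 0)
          = ∑ i ∈ J, ∑ ω' : (∀ i, Ω i), ∑ A ∈ J.powerset,
            (if i ∉ A ∧ ess ω' A i then mA w J S R (insert i A) ω' else 0) :=
            Finset.sum_congr rfl fun i _ => Finset.sum_comm
        _ = ∑ i ∈ J, ∑ ω' : (∀ i, Ω i), ∑ A ∈ J.powerset,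
            (if i ∈ A ∧ ess ω' (A.erase i) i then mA w J S R A ω' else 0) :=
            Finset.sum_congr rfl fun i hi => Finset.sum_congr rfl fun ω' _ => h1 i hi ω'
        _ = ∑ ω' : (∀ i, Ω i), ∑ i ∈ J, ∑ A ∈ J.powerset,
            (if i ∈ A ∧ ess ω' (A.erase i) i then mA w J S R A ω' else 0) := Finset.sum_comm
        _ = ∑ ω' : (∀ i, Ω i), ∑ A ∈ J.powerset, ∑ i ∈ J,
            (if i ∈ A ∧ ess ω' (A.erase i) i then mA w J S R A ω' else 0) :=
            Finset.sum_congr rfl fun ω' _ => Finset.sum_comm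
        _ = _ := by
            refine Finset.sum_congr rfl fun ω' _ => Finset.sum_congr rfl fun A hA => ?_
            rw [← Finset.sum_filter, Finset.sum_const, nsmul_eq_mul, mul_comm]
            congr 2
            congr 1
            ext i
            rw [Finset.mem_filter, Finset.mem_filter]
            constructor
            · rintro ⟨h2, h3, h4⟩
              exact ⟨h3, h4⟩
            · rintro ⟨h3, h4⟩
              exact ⟨Finset.mem_powerset.1 hA h3, h3, h4⟩
    rw [step5]
    refine Finset.sum_le_sum fun ω' _ => ?_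
    rw [Finset.sum_mul]
    refine Finset.sum_le_sum fun A hA => ?_
    refine mul_le_mul_of_nonneg_left ?_ (mA_nonneg hw A ω')
    have h1 := ess_card (W ω') (U ω') A
    have h2 := hcod ω' A (Finset.mem_powerset.1 hA)
    have h3 : (((A.filter fun i => ¬ (W ω' ⊓ ⨅ j ∈ A.erase i, U ω' j ≤ U ω' i)).card : ℝ)) +
        (Module.finrank F (W ω' ⊓ ⨅ i ∈ A, U ω' i : Submodule F (X → F)) : ℝ) ≤
        (Module.finrank F (W ω') : ℝ) := by
      exact_mod_cast h1
    have h4 : ((A.filter fun i => ess ω' (A.erase i) i).card : ℝ) =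
        ((A.filter fun i => ¬ (W ω' ⊓ ⨅ j ∈ A.erase i, U ω' j ≤ U ω' i)).card : ℝ) := rfl
    rw [h4]
    linarith

end Pool.Agent.TH974.IH
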