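import Pool.Agent.TH667.KMove

set_option autoImplicit false

open Classical

namespace Pool.Agent.TH667.KK

open Pool.Agent.TH476 Pool.Agent.TH476.KK

/-- restriction of a path to the positions i..j is light -/
lemma sub_pth {V : Type} {G : SimpleGraph V} {B : ℕ → V → V → Prop} {l : ℕ} {p : ℕ → V}
    (h : PthV G B l p) (i j : ℕ) (hj : i + j ≤ l) (hjl : j < l) :
    PthV G B j (fun m => p (i + m)) ∧ (2 ≤ j → ¬ B j (p i) (p (i + j))) := by
  refine ⟨⟨fun m hm => h.1 (i + m) (by omega), fun m m' hm hm' heq => ?_, fun a b hab hb h2 h3 => ?_⟩,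
    fun h2 => ?_⟩
  · have := h.2.1 (i + m) (i + m') (by omega) (by omega) heq
    omega
  · have h4 := h.2.2 (i + a) (i + b) (by omega) (by omega) (by omega) (by omega)
    have e1 : i + b - (i + a) = b - a := by omega
    rw [e1] at h4
    exact h4
  · have h4 := h.2.2 i (i + j) (by omega) (by omega) (by omega) (by omega)
    have e1 : i + j - i = j := by omega
    rw [e1] at h4
    exact h4

lemma RSt.mono {V : Type} [Fintype V] {G : SimpleGraph V} {B : ℕ → V → V → Prop}
    {l q D M' M'' : ℕ} {𝓡 : Finset (Fin (l + 1) → V)} (h : RSt G B l q D M' 𝓡) (hM : M'' ≤ M') :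
    RSt G B l q D M'' 𝓡 :=
  ⟨h.ne, h.sub, h.rev, h.cls, fun p hp => hM.trans (h.pr p hp)⟩

/-- PthV only depends on the values up to j -/
lemma PthV_congr {V : Type} {G : SimpleGraph V} {B : ℕ → V → V → Prop} {j : ℕ} {p p' : ℕ → V}
    (h : ∀ m, m ≤ j → p m = p' m) (hp : PthV G B j p) : PthV G B j p' := by
  refine ⟨fun i hi => ?_, fun i i' hi hi' heq => ?_, fun a b hab hb h2 h3 => ?_⟩
  · rw [← h i (by omega), ← h (i + 1) (by omega)]
    exact hp.1 i hi
  · rw [← h i hi, ← h i' hi'] at heq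
    exact hp.2.1 i i' hi hi' heq
  · rw [← h a (by omega), ← h b hb]
    exact hp.2.2 a b hab hb h2 h3

/-- few members of a pair class through a given vertex at a given inner position -/
lemma few_through {V : Type} [Fintype V] {G : SimpleGraph V} {B : ℕ → V → V → Prop} {l F0 : ℕ}
    (hB : BNd G B l F0) (x y v : V) (i : ℕ) (hi : 1 ≤ i) (hil : i < l)
    (A : Finset (Fin (l + 1) → V)) (hA : ∀ p ∈ A, p ∈ RCs G B l ∧ ex l p 0 = x ∧ ex l p l = y ∧
      ex l p i = v) : A.card ≤ F0 * F0 := by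
  set A1 := Finset.univ.filter (fun p : Fin (i + 1) → V =>
    PthV G B i (ex i p) ∧ (2 ≤ i → ¬ B i x v) ∧ ex i p 0 = x ∧ ex i p i = v) with hA1
  set A2 := Finset.univ.filter (fun p : Fin (l - i + 1) → V =>
    PthV G B (l - i) (ex (l - i) p) ∧ (2 ≤ l - i → ¬ B (l - i) v y) ∧ ex (l - i) p 0 = v ∧
      ex (l - i) p (l - i) = y) with hA2
  have h1 : A1.card ≤ F0 := hB i hi hil x v
  have h2 : A2.card ≤ F0 := hB (l - i) (by omega) (by omega) v y
  set f : (Fin (l + 1) → V) → (Fin (i + 1) → V) × (Fin (l - i + 1) → V) := fun p =>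
    (fun m => ex l p m, fun m => ex l p (i + m)) with hf
  have hf1 : ∀ p m, m ≤ i → ex i (f p).1 m = ex l p m := fun p m hm => by
    rw [ex_val i (f p).1 m hm]
  have hf2 : ∀ p m, m ≤ l - i → ex (l - i) (f p).2 m = ex l p (i + m) := fun p m hm => by
    rw [ex_val (l - i) (f p).2 m hm]
  have hmap : ∀ p ∈ A, f p ∈ A1 ×ˢ A2 := by
    intro p hp
    obtain ⟨hp1, hp2, hp3, hp4⟩ := hA p hp
    unfold RCs at hp1
    rw [Finset.mem_filter] at hp1
    obtain ⟨g1, g2⟩ := sub_pth hp1.2.1 0 i (by omega) hil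
    obtain ⟨g3, g4⟩ := sub_pth hp1.2.1 i (l - i) (by omega) (by omega)
    rw [Finset.mem_product]
    refine ⟨Finset.mem_filter.mpr ⟨Finset.mem_univ _, ?_, ?_, ?_, ?_⟩,
      Finset.mem_filter.mpr ⟨Finset.mem_univ _, ?_, ?_, ?_, ?_⟩⟩
    · refine PthV_congr (fun m hm => ?_) g1
      rw [hf1 p m hm, Nat.zero_add]
    · intro h5
      have h6 := g2 h5
      rw [Nat.zero_add, hp2, hp4] at h6
      exact h6
    · rw [hf1 p 0 (by omega)]
      exact hp2
    · rw [hf1 p i le_rfl]
      exact hp4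
    · refine PthV_congr (fun m hm => ?_) g3
      rw [hf2 p m hm]
    · intro h5
      have h6 := g4 h5
      rw [hp4, show i + (l - i) = l by omega, hp3] at h6
      exact h6
    · rw [hf2 p 0 (by omega)]
      exact hp4
    · rw [hf2 p (l - i) le_rfl, show i + (l - i) = l by omega]
      exact hp3
  have hinj : Set.InjOn f (A : Set (Fin (l + 1) → V)) := by
    intro p _ p' _ heq
    funext m
    have e1 := ex_val l p m (by have := m.2; omega)
    have e2 := ex_val l p' m (by have := m.2; omega)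
    have e3 : (⟨(m : ℕ), Nat.lt_succ_of_le (by have := m.2; omega)⟩ : Fin (l + 1)) = m := rfl
    rw [e3] at e1 e2
    rw [← e1, ← e2]
    rcases Nat.lt_or_ge i m with h5 | h5
    · have h6 := hf2 p (m - i) (by have := m.2; omega)
      have h7 := hf2 p' (m - i) (by have := m.2; omega)
      rw [show i + ((m : ℕ) - i) = m by omega] at h6 h7
      rw [← h6, ← h7, heq]
    · rw [← hf1 p m h5, ← hf1 p' m h5, heq]
  calc A.card ≤ (A1 ×ˢ A2).card := Finset.card_le_card_of_injOn f hmap hinj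
    _ = A1.card * A2.card := Finset.card_product _ _
    _ ≤ F0 * F0 := Nat.mul_le_mul h1 h2

/-- a member of the pair class whose interior avoids Z -/
lemma avoid {V : Type} [Fintype V] {G : SimpleGraph V} {B : ℕ → V → V → Prop} {l q D F0 ζ M' : ℕ}
    (hB : BNd G B l F0) {𝓡 : Finset (Fin (l + 1) → V)} (h𝓡 : RSt G B l q D M' 𝓡)
    (hM : l * (ζ * (F0 * F0)) < M') (p : Fin (l + 1) → V) (hp : p ∈ 𝓡) (Z : Finset V)
    (hZ : Z.card ≤ ζ) : ∃ p' ∈ 𝓡, ex l p' 0 = ex l p 0 ∧ ex l p' l = ex l p l ∧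
      ∀ i, 1 ≤ i → i < l → ex l p' i ∉ Z := by
  by_contra hcon
  have h1 := h𝓡.pr p hp
  set A := 𝓡.filter (fun p' => ex l p' 0 = ex l p 0 ∧ ex l p' l = ex l p l) with hA
  have h2 : A ⊆ (Finset.range l).biUnion (fun i => Z.biUnion (fun v =>
      if 1 ≤ i then A.filter (fun p' => ex l p' i = v) else ∅)) := by
    intro p' hp'
    by_contra h3
    have h4 := Finset.mem_filter.mp hp'
    refine hcon ⟨p', h4.1, h4.2.1, h4.2.2, fun i hi hi' hiZ => h3 ?_⟩
    refine Finset.mem_biUnion.mpr ⟨i, Finset.mem_range.mpr hi', Finset.mem_biUnion.mpr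
      ⟨ex l p' i, hiZ, ?_⟩⟩
    rw [if_pos hi]
    exact Finset.mem_filter.mpr ⟨hp', rfl⟩
  have h3 : A.card ≤ l * (ζ * (F0 * F0)) := by
    refine (Finset.card_le_card h2).trans (Finset.card_biUnion_le.trans ?_)
    calc _ ≤ ∑ i ∈ Finset.range l, ζ * (F0 * F0) := by
          refine Finset.sum_le_sum fun i hi => Finset.card_biUnion_le.trans ?_
          rw [Finset.mem_range] at hi
          calc _ ≤ ∑ v ∈ Z, F0 * F0 := by
                refine Finset.sum_le_sum fun v _ => ?_
                by_cases h4 : 1 ≤ i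
                · rw [if_pos h4]
                  refine few_through hB (ex l p 0) (ex l p l) v i h4 hi _ fun p' hp' => ?_
                  obtain ⟨h5, h6⟩ := Finset.mem_filter.mp hp'
                  obtain ⟨h7, h8, h9⟩ := Finset.mem_filter.mp h5
                  exact ⟨h𝓡.sub p' h7, h8, h9, h6⟩
                · rw [if_neg h4, Finset.card_empty]
                  exact Nat.zero_le _
            _ ≤ ζ * (F0 * F0) := by
                rw [Finset.sum_const, smul_eq_mul]
                exact Nat.mul_le_mul_right _ hZ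
      _ = l * (ζ * (F0 * F0)) := by
          rw [Finset.sum_const, smul_eq_mul, Finset.card_range]
  omega

/-- a member which agrees with p on 1..l and starts outside Z -/
lemma newstart {V : Type} [Fintype V] {G : SimpleGraph V} {B : ℕ → V → V → Prop}
    {l q D ζ M' : ℕ} (hl : 2 ≤ l) {𝓡 : Finset (Fin (l + 1) → V)} (h𝓡 : RSt G B l q D M' 𝓡)
    (hD : q * ζ < D) (p : Fin (l + 1) → V) (hp : p ∈ 𝓡) (Z : Finset V)
    (hZ : Z.card ≤ ζ) : ∃ p' ∈ 𝓡, (∀ i, 1 ≤ i → i ≤ l → ex l p' i = ex l p i) ∧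
      ex l p' 0 ∉ Z := by
  obtain ⟨A, hA1, hA2, h1⟩ := clsA h𝓡 hp 1 l (by omega) le_rfl
  have e1 : l - (l - 1) = 1 := by omega
  rw [e1, pow_one] at h1
  by_contra hcon
  push Not at hcon
  have hinj : Set.InjOn (fun p' : Fin (l + 1) → V => ex l p' 0) (A : Set (Fin (l + 1) → V)) := by
    intro p1 hp1 p2 hp2 h
    simp only at h
    have h1' := hA2 p1 (Finset.mem_coe.mp hp1)
    have h2' := hA2 p2 (Finset.mem_coe.mp hp2)
    funext i
    have e1 := ex_val l p1 i (by have := i.2; omega)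
    have e2 := ex_val l p2 i (by have := i.2; omega)
    have e3 : (⟨(i : ℕ), Nat.lt_succ_of_le (by have := i.2; omega)⟩ : Fin (l + 1)) = i := rfl
    rw [e3] at e1 e2
    rw [← e1, ← e2]
    rcases Nat.eq_zero_or_pos (i : ℕ) with h0 | h0
    · rw [h0]
      exact h
    · rw [h1' i h0 (by have := i.2; omega), h2' i h0 (by have := i.2; omega)]
  have h2 : A.card ≤ Z.card := Finset.card_le_card_of_injOn (fun p' => ex l p' 0)
    (fun p' hp' => hcon p' (hA1 hp') (hA2 p' hp')) hinj
  have h3 : q * A.card ≤ q * ζ := Nat.mul_le_mul_left _ (h2.trans hZ)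
  omega

theorem ext_holds : S_EXT := by
  intro l q F0 ζ t hl hq
  induction t generalizing ζ with
  | zero =>
    refine ⟨l * (ζ * (F0 * F0)) + 1, 1, ?_⟩
    intro V _ _ G D B 𝓡 hBs hBN hD h𝓡 p hp Z hZ
    obtain ⟨p', hp', h0, h1, h2⟩ := avoid hBN h𝓡 (Nat.lt_succ_self _) p hp Z hZ
    obtain ⟨h3, h4⟩ := pth h𝓡 hp'
    exact ⟨ex l p', h0, h1, h3, h2, h4⟩
  | succ t ih =>
    obtain ⟨M1, D1, h⟩ := ih (ζ + 2)
    refine ⟨M1 + (l * (ζ * (F0 * F0)) + 1), D1 + q * (ζ + 2) + 1, ?_⟩
    intro V _ _ G D B 𝓡 hBs hBN hD h𝓡 p hp Z hZ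
    obtain ⟨p', hp', h0, h1, h2⟩ := avoid hBN h𝓡 (by omega) p hp Z hZ
    obtain ⟨h3, h4⟩ := pth h𝓡 hp'
    have hZ2 : ∀ u v : V, (insert u (insert v Z)).card ≤ ζ + 2 := fun u v =>
      (Finset.card_insert_le _ _).trans (Nat.succ_le_succ
        ((Finset.card_insert_le _ _).trans (by omega)))
    obtain ⟨p2, hp2, h5, h6⟩ := newstart hl h𝓡 (ζ := ζ + 2) (by omega) p' hp'
      (insert (ex l p' 0) (insert (ex l p' l) Z)) (hZ2 _ _)
    rw [Finset.mem_insert, Finset.mem_insert] at h6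
    push Not at h6
    obtain ⟨h7, h8⟩ := pth h𝓡 hp2
    obtain ⟨P, g1, g2, g3, g4, g5⟩ := h V G D B 𝓡 hBs hBN (by omega)
      (RSt.mono h𝓡 (by omega)) p2 hp2 (insert (ex l p' 0) (insert (ex l p' 1) Z)) (hZ2 _ _)
    have g4' : ∀ i, 1 ≤ i → i < l + 2 * t → P i ≠ ex l p' 0 ∧ P i ≠ ex l p' 1 ∧ P i ∉ Z := by
      intro i hi hi'
      have h9 := g4 i hi hi'
      rw [Finset.mem_insert, Finset.mem_insert] at h9
      push Not at h9
      exact h9
    have hl2 : ex l p2 l = ex l p' l := h5 l (by omega) le_rfl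
    have h21 : ex l p2 1 = ex l p' 1 := h5 1 le_rfl (by omega)
    -- prepend p' 1, then p' 0
    have a1 : G.Adj (ex l p' 1) (P 0) := by
      rw [g1, ← h21]
      exact (h7 0 (by omega)).symm
    have n1 : ∀ i, i ≤ l + 2 * t → P i ≠ ex l p' 1 := by
      intro i hi
      rcases Nat.eq_zero_or_pos i with h0' | h0'
      · rw [h0', g1, ← h21]
        intro heq
        have := h8 0 1 (by omega) (by omega) heq
        omega
      · rcases Nat.lt_or_ge i (l + 2 * t) with h9 | h9
        · exact (g4' i h0' h9).2.1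
        · have e1 : i = l + 2 * t := by omega
          rw [e1, g2, hl2]
          intro heq
          have := h4 l 1 (by omega) (by omega) heq
          omega
    have n0 : ∀ i, i ≤ l + 2 * t → P i ≠ ex l p' 0 := by
      intro i hi
      rcases Nat.eq_zero_or_pos i with h0' | h0'
      · rw [h0', g1]
        exact h6.1
      · rcases Nat.lt_or_ge i (l + 2 * t) with h9 | h9
        · exact (g4' i h0' h9).1
        · have e1 : i = l + 2 * t := by omega
          rw [e1, g2, hl2]
          intro heq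
          have := h4 l 0 (by omega) (by omega) heq
          omega
    obtain ⟨P1, f1, f2, f3, f4⟩ := prep G (l + 2 * t) P (ex l p' 1) g3 a1 g5
    have f4' := f4 (l + 2 * t + 1) le_rfl (fun i hi => n1 i (by omega))
    obtain ⟨P2, k1, k2, k3, k4⟩ := prep G (l + 2 * t + 1) P1 (ex l p' 0)
      (fun i hi => f3 i (by omega)) (by
        rw [f1]
        exact h3 0 (by omega)) f4'
    have e2 : l + 2 * (t + 1) = l + 2 * t + 1 + 1 := by ring
    refine ⟨P2, ?_, ?_, ?_, ?_, ?_⟩
    · rw [k1, h0]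
    · rw [e2, k2, f2, g2, hl2, h1]
    · intro i hi
      exact k3 i (by omega)
    · intro i hi hi'
      obtain ⟨i, rfl⟩ : ∃ i0, i = i0 + 1 := ⟨i - 1, by omega⟩
      rw [k2]
      rcases Nat.eq_zero_or_pos i with h9 | h9
      · rw [h9, f1]
        exact h2 1 le_rfl (by omega)
      · obtain ⟨i, rfl⟩ : ∃ i0, i = i0 + 1 := ⟨i - 1, by omega⟩
        rw [f2]
        rcases Nat.eq_zero_or_pos i with h10 | h10
        · rw [h10, g1]
          exact h6.2.2
        · exact (g4' i h10 (by omega)).2.2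
    · intro i i' hi hi' heq
      refine k4 (l + 2 * t + 1 + 1) le_rfl (fun m hm => ?_) i i' (by omega) (by omega) heq
      rcases Nat.eq_zero_or_pos m with h9 | h9
      · rw [h9, f1]
        intro heq'
        have := h4 1 0 (by omega) (by omega) heq'
        omega
      · obtain ⟨m, rfl⟩ : ∃ i0, m = i0 + 1 := ⟨m - 1, by omega⟩
        rw [f2]
        exact n0 m (by omega)

end Pool.Agent.TH667.KK
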