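import Pool.Agent.TH667.KSel

set_option autoImplicit false

open Classical

namespace Pool.Agent.TH667.KK

open Pool.Agent.TH476 Pool.Agent.TH476.KK

/-- size of the forbidden sets -/
def zet (ζ k : ℕ) : ℕ := 2 * ζ + 1 + ζ * (k + 2)

/-- common root and disjoint paths -/
lemma mvmove (l q K k ζ : ℕ) (hK : 0 < K) (hq : 0 < q) : ∃ D0 : ℕ, ∀ (V : Type) [Fintype V]
    [Nonempty V] (G : SimpleGraph V) (D M' : ℕ) (B : ℕ → V → V → Prop)
    (𝓡 : Finset (Fin (l + 1) → V)), AR G D K → D0 ≤ D → RSt G B l q D M' 𝓡 →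
    ∀ a b, a + 2 ≤ b → b ≤ l → ∀ (w : V) (S Z : Finset V) (n' : ℕ),
    (∀ s ∈ S, ∃ p ∈ 𝓡, ex l p a = s ∧ ex l p (a + 1) = w) →
    4 * q * K ^ l * n' ≤ S.card → S.card ≤ ζ → Z.card ≤ ζ → ∀ len, len ≤ k + 1 →
    ∀ Gd : V → (ℕ → V) → Prop,
    (∀ ρ s, ∀ W : Finset V, W.card ≤ zet ζ k →
      (∃ p ∈ 𝓡, ex l p a = s ∧ ex l p (a + 1) = w ∧ ex l p b = ρ ∧
        ∀ i, i ≤ l → (i < a ∨ b < i) → ex l p i ∉ W) →
      ∃ P : ℕ → V, P 0 = s ∧ Gd ρ P ∧ (∀ i, 1 ≤ i → i ≤ len → P i ∉ W) ∧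
        ∀ i i', i ≤ len → i' ≤ len → P i = P i' → i = i') →
    ∃ ρ, ρ ∉ Z ∧ ρ ∉ S ∧ ∃ P : Fin n' → ℕ → V,
      (∀ j, P j 0 ∈ S ∧ Gd ρ (P j) ∧ ∀ i, 1 ≤ i → i ≤ len → P j i ∉ Z ∧ P j i ∉ S ∧ P j i ≠ ρ) ∧
      ∀ j j' i i', i ≤ len → i' ≤ len → P j i = P j' i' → j = j' ∧ i = i' := by
  obtain ⟨D1, hD1⟩ := sel l q K (zet ζ k) hK hq
  refine ⟨D1 + 2 * ζ + 1, ?_⟩
  intro V _ _ G D M' B 𝓡 hG hD0 h𝓡 a b hab hbl w S Z n' hS hn' hSζ hZζ len hlen Gd hGd
  have hC : 0 < 4 * q * K ^ l := Nat.mul_pos (by omega) (Nat.pow_pos hK)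
  have hZS : (Z ∪ S).card ≤ 2 * ζ := (Finset.card_union_le _ _).trans (by omega)
  rcases Finset.eq_empty_or_nonempty S with hSe | hSne
  · have hn0 : n' = 0 := by
      rw [hSe, Finset.card_empty] at hn'
      rcases Nat.eq_zero_or_pos n' with h | h
      · exact h
      · have := Nat.mul_pos hC h
        omega
    subst hn0
    have hV : 2 * ζ < Fintype.card V := by
      obtain ⟨v⟩ := (inferInstance : Nonempty V)
      have h1 := hG.lo v
      have h2 : (nb G v).card ≤ Fintype.card V := Finset.card_le_univ _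
      omega
    obtain ⟨ρ, hρ⟩ : ∃ ρ, ρ ∉ Z ∪ S := by
      by_contra h
      push Not at h
      have h1 : Finset.univ ⊆ Z ∪ S := fun x _ => h x
      have h2 := Finset.card_le_card h1
      rw [Finset.card_univ] at h2
      omega
    exact ⟨ρ, fun h => hρ (Finset.mem_union_left _ h), fun h => hρ (Finset.mem_union_right _ h),
      fun j => j.elim0, fun j => j.elim0, fun j => j.elim0⟩
  · obtain ⟨ρ, hρ, S', hS', hc, hsel⟩ := hD1 V G D M' B 𝓡 hG (by omega) h𝓡 a b hab hbl w S (Z ∪ S)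
      hSne (hZS.trans (by unfold zet; omega)) hS
    have hn : n' ≤ S'.card := Nat.le_of_mul_le_mul_left (hn'.trans hc) hC
    have hnζ : n' ≤ ζ := by
      have h1 : 1 * n' ≤ 4 * q * K ^ l * n' := Nat.mul_le_mul_right _ hC
      omega
    set W0 : Finset V := insert ρ (Z ∪ S) with hW0
    have hW0c : W0.card + n' * (len + 1) ≤ zet ζ k := by
      have h1 : W0.card ≤ 2 * ζ + 1 := (Finset.card_insert_le _ _).trans (by omega)
      have h2 : n' * (len + 1) ≤ ζ * (k + 2) := Nat.mul_le_mul hnζ (by omega)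
      unfold zet
      omega
    obtain ⟨P, hP1, hP2⟩ := greedy n' len (zet ζ k) S' W0 hn
      (fun s hs => Finset.mem_insert_of_mem (Finset.mem_union_right _ (hS' hs))) (Gd ρ)
      (fun s hs W hW => hGd ρ s W hW (hsel s hs W hW)) hW0c
    refine ⟨ρ, fun h => hρ (Finset.mem_union_left _ h), fun h => hρ (Finset.mem_union_right _ h),
      P, fun j => ?_, hP2⟩
    obtain ⟨h1, h2, h3⟩ := hP1 j
    refine ⟨hS' h1, h2, fun i hi hi' => ?_⟩
    have h4 := h3 i hi hi'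
    rw [hW0, Finset.mem_insert, Finset.mem_union] at h4
    push Not at h4
    exact ⟨h4.2.1, h4.2.2, h4.1⟩

lemma clsA {V : Type} [Fintype V] {G : SimpleGraph V} {B : ℕ → V → V → Prop} {l q D M' : ℕ}
    {𝓡 : Finset (Fin (l + 1) → V)} (h𝓡 : RSt G B l q D M' 𝓡) {p : Fin (l + 1) → V} (hp : p ∈ 𝓡)
    (i j : ℕ) (hij : i ≤ j) (hj : j ≤ l) : ∃ A : Finset (Fin (l + 1) → V), A ⊆ 𝓡 ∧
      (∀ p' ∈ A, ∀ m, i ≤ m → m ≤ j → ex l p' m = ex l p m) ∧
      D ^ (l - (j - i)) ≤ q * A.card :=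
  ⟨_, Finset.filter_subset _ _, fun _ hp' => (Finset.mem_filter.mp hp').2,
    h𝓡.cls p hp i j hij hj⟩

/-- initial sets -/
lemma ini (l q : ℕ) (hl : 2 ≤ l) (hq : 0 < q) (ζ : ℕ) (V : Type) [Fintype V]
    (G : SimpleGraph V) (D M' : ℕ) (B : ℕ → V → V → Prop) (𝓡 : Finset (Fin (l + 1) → V))
    (hD : q * ζ ≤ D) (h𝓡 : RSt G B l q D M' 𝓡) (n0 : ℕ) (hn0 : n0 ≤ ζ) :
    ∃ (w : V) (S : Finset V), S.card = n0 ∧ w ∉ S ∧
      ∀ s ∈ S, ∃ p ∈ 𝓡, ex l p 0 = s ∧ ex l p 1 = w := by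
  obtain ⟨p, hp⟩ := h𝓡.ne
  obtain ⟨A, hA1, hA2, h1⟩ := clsA h𝓡 hp 1 l (by omega) le_rfl
  have e1 : l - (l - 1) = 1 := by omega
  rw [e1, pow_one] at h1
  have hinj : Set.InjOn (fun p' : Fin (l + 1) → V => ex l p' 0) (A : Set (Fin (l + 1) → V)) := by
    intro p1 hp1 p2 hp2 h
    simp only at h
    have h1' := hA2 p1 (Finset.mem_coe.mp hp1)
    have h2' := hA2 p2 (Finset.mem_coe.mp hp2)
    funext i
    have e1 := ex_val l p1 i (by have := i.2; omega)
    have e2 := ex_val l p2 i (by have := i.2; omega)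
    have e3 : (⟨(i : ℕ), Nat.lt_succ_of_le (by have := i.2; omega)⟩ : Fin (l + 1)) = i := rfl
    rw [e3] at e1 e2
    rw [← e1, ← e2]
    rcases Nat.eq_zero_or_pos (i : ℕ) with h0 | h0
    · rw [h0]
      exact h
    · rw [h1' i h0 (by have := i.2; omega), h2' i h0 (by have := i.2; omega)]
  have hc : (A.image (fun p' => ex l p' 0)).card = A.card := Finset.card_image_of_injOn hinj
  have h2 : n0 ≤ (A.image (fun p' => ex l p' 0)).card := by
    rw [hc]
    have h3 : q * n0 ≤ q * A.card := (Nat.mul_le_mul_left _ hn0).trans (hD.trans h1)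
    exact Nat.le_of_mul_le_mul_left h3 hq
  obtain ⟨S, hS, hSc⟩ := Finset.exists_subset_card_eq h2
  have hall : ∀ s ∈ S, ∃ p' ∈ 𝓡, ex l p' 0 = s ∧ ex l p' 1 = ex l p 1 := by
    intro s hs
    obtain ⟨p', hp', rfl⟩ := Finset.mem_image.mp (hS hs)
    exact ⟨p', hA1 hp', rfl, hA2 p' hp' 1 le_rfl (by omega)⟩
  refine ⟨ex l p 1, S, hSc, fun hw => ?_, hall⟩
  obtain ⟨p', hp', h3, h4⟩ := hall _ hw
  have := (pth h𝓡 hp').2 0 1 (by omega) (by omega) (h3.trans h4.symm)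
  omega

/-- a vertex appended to a path -/
lemma app {V : Type} (G : SimpleGraph V) (k : ℕ) (P : ℕ → V) (v : V)
    (h1 : ∀ i, i < k → G.Adj (P i) (P (i + 1))) (h2 : G.Adj (P k) v)
    (h3 : ∀ i i', i ≤ k → i' ≤ k → P i = P i' → i = i') :
    ∃ P' : ℕ → V, (∀ i, i ≤ k → P' i = P i) ∧ P' (k + 1) = v ∧
      (∀ i, i ≤ k → G.Adj (P' i) (P' (i + 1))) ∧
      ((∀ i, i ≤ k → P i ≠ v) → ∀ i i', i ≤ k + 1 → i' ≤ k + 1 → P' i = P' i' → i = i') := by
  have e1 : ∀ i, i ≤ k → (fun i => if i ≤ k then P i else v) i = P i := fun i hi => if_pos hi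
  have e2 : (fun i => if i ≤ k then P i else v) (k + 1) = v := if_neg (by omega)
  refine ⟨fun i => if i ≤ k then P i else v, e1, e2, fun i hi => ?_, fun h i i' hi hi' heq => ?_⟩
  · rw [e1 i hi]
    rcases Nat.lt_or_ge i k with h | h
    · rw [e1 (i + 1) h]
      exact h1 i h
    · have : i = k := by omega
      rw [this, e2]
      exact h2
  · rcases Nat.lt_or_ge k i with h4 | h4
    · have hik : i = k + 1 := by omega
      rcases Nat.lt_or_ge k i' with h5 | h5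
      · omega
      · rw [hik, e2, e1 i' h5] at heq
        exact absurd heq.symm (h i' h5)
    · rcases Nat.lt_or_ge k i' with h5 | h5
      · have hik : i' = k + 1 := by omega
        rw [hik, e2, e1 i h4] at heq
        exact absurd heq (h i h4)
      · rw [e1 i h4, e1 i' h5] at heq
        exact h3 i i' h4 h5 heq

/-- a vertex prepended to a path -/
lemma prep {V : Type} (G : SimpleGraph V) (k : ℕ) (P : ℕ → V) (v : V)
    (h1 : ∀ i, i < k → G.Adj (P i) (P (i + 1))) (h2 : G.Adj v (P 0))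
    (h3 : ∀ i i', i ≤ k → i' ≤ k → P i = P i' → i = i') :
    ∃ P' : ℕ → V, P' 0 = v ∧ (∀ i, P' (i + 1) = P i) ∧
      (∀ i, i ≤ k → G.Adj (P' i) (P' (i + 1))) ∧
      ∀ j, j ≤ k + 1 → (∀ i, i < j → P i ≠ v) →
        ∀ i i', i ≤ j → i' ≤ j → P' i = P' i' → i = i' := by
  have e1 : ∀ i, (fun i => if i = 0 then v else P (i - 1)) (i + 1) = P i := fun i => by
    simp only [Nat.add_eq_zero_iff, one_ne_zero, and_false, if_false, Nat.add_sub_cancel]
  have e2 : (fun i => if i = 0 then v else P (i - 1)) 0 = v := if_pos rfl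
  refine ⟨fun i => if i = 0 then v else P (i - 1), e2, e1, fun i hi => ?_,
    fun j hj h i i' hi hi' heq => ?_⟩
  · rcases i with _ | i
    · rw [e2, e1]
      exact h2
    · rw [e1, e1]
      exact h1 i (by omega)
  · rcases i with _ | i
    · rcases i' with _ | i'
      · rfl
      · rw [e2, e1] at heq
        exact absurd heq.symm (h i' (by omega))
    · rcases i' with _ | i'
      · rw [e2, e1] at heq
        exact absurd heq (h i (by omega))
      · rw [e1, e1] at heq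
        rw [h3 i i' (by omega) (by omega) heq]

end Pool.Agent.TH667.KK
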