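import Pool.Agent.TH667.KWalk

set_option autoImplicit false

open Classical

namespace Pool.Agent.TH667.KK

open Pool.Agent.TH476 Pool.Agent.TH476.KK

variable {V : Type} [Fintype V]

lemma pth {G : SimpleGraph V} {B : ℕ → V → V → Prop} {l q D M' : ℕ}
    {𝓡 : Finset (Fin (l + 1) → V)} (h𝓡 : RSt G B l q D M' 𝓡) {p : Fin (l + 1) → V} (hp : p ∈ 𝓡) :
    (∀ i, i < l → G.Adj (ex l p i) (ex l p (i + 1))) ∧
      ∀ i i', i ≤ l → i' ≤ l → ex l p i = ex l p i' → i = i' := by
  have h := h𝓡.sub p hp
  unfold RCs at h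
  rw [Finset.mem_filter] at h
  exact ⟨h.2.1.1, h.2.1.2.1⟩

/-- reversal -/
lemma rv {G : SimpleGraph V} {B : ℕ → V → V → Prop} {l q D M' : ℕ}
    {𝓡 : Finset (Fin (l + 1) → V)} (h𝓡 : RSt G B l q D M' 𝓡) {p : Fin (l + 1) → V} (hp : p ∈ 𝓡) :
    ∃ p' ∈ 𝓡, ∀ i, i ≤ l → ex l p' i = ex l p (l - i) := by
  refine ⟨_, h𝓡.rev p hp, fun i hi => ?_⟩
  rw [ex_val l _ i hi, ex_val l p (l - i) (Nat.sub_le _ _)]
  congr 1
  apply Fin.ext
  rw [Fin.val_rev]
  simp only
  omega

/-- selection of a common root: the members of the family with p a = s, p (a+1) = w; a common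
part (a+2 .. b) for many s -/
lemma sel (l q K ζ : ℕ) (hK : 0 < K) (hq : 0 < q) : ∃ D0 : ℕ, ∀ (V : Type) [Fintype V]
    (G : SimpleGraph V) (D M' : ℕ) (B : ℕ → V → V → Prop) (𝓡 : Finset (Fin (l + 1) → V)),
    AR G D K → D0 ≤ D → RSt G B l q D M' 𝓡 → ∀ a b, a + 2 ≤ b → b ≤ l →
    ∀ (w : V) (S X : Finset V), S.Nonempty → X.card ≤ ζ →
    (∀ s ∈ S, ∃ p ∈ 𝓡, ex l p a = s ∧ ex l p (a + 1) = w) →
    ∃ ρ, ρ ∉ X ∧ ∃ S' ⊆ S, S.card ≤ 4 * q * K ^ l * S'.card ∧ ∀ s ∈ S', ∀ W : Finset V,
      W.card ≤ ζ → ∃ p ∈ 𝓡, ex l p a = s ∧ ex l p (a + 1) = w ∧ ex l p b = ρ ∧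
        ∀ i, i ≤ l → (i < a ∨ b < i) → ex l p i ∉ W := by
  refine ⟨4 * q * (l + 1) * (ζ + 1) * K ^ l + 1, ?_⟩
  intro V _ G D M' B 𝓡 hG hD0 h𝓡 a b hab hbl w S X hSne hX hS
  have hKl : 0 < K ^ l := Nat.pow_pos hK
  have hD : 0 < D := by omega
  have hKD : 0 < K * D := Nat.mul_pos hK hD
  obtain ⟨n, hn⟩ : ∃ n, b = a + 1 + n := ⟨b - (a + 1), by omega⟩
  have hn1 : 1 ≤ n := by omega
  obtain ⟨z, hz⟩ : ∃ z, l = n + 1 + z := ⟨l - (n + 1), by omega⟩
  set R : V → Finset (Fin (l + 1) → V) := fun s =>
    𝓡.filter (fun p => ex l p a = s ∧ ex l p (a + 1) = w) with hR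
  have hRmem : ∀ s p, p ∈ R s ↔ p ∈ 𝓡 ∧ ex l p a = s ∧ ex l p (a + 1) = w := fun s p => by
    rw [hR]
    simp only [Finset.mem_filter]
  have hRc : ∀ s ∈ S, D ^ (l - 1) ≤ q * (R s).card := by
    intro s hs
    obtain ⟨p, hp, hpa, hpw⟩ := hS s hs
    have h1 := h𝓡.cls p hp a (a + 1) (by omega) (by omega)
    have e1 : l - (a + 1 - a) = l - 1 := by omega
    rw [e1] at h1
    refine h1.trans (Nat.mul_le_mul_left _ (Finset.card_le_card ?_))
    intro p' hp'
    rw [Finset.mem_filter] at hp'
    rw [hRmem]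
    exact ⟨hp'.1, (hp'.2 a le_rfl (by omega)).trans hpa, (hp'.2 (a + 1) (by omega) le_rfl).trans hpw⟩
  -- bad members
  have hbad : ∀ s, ((R s).filter (fun p => ex l p b ∈ X)).card ≤ ζ * (K * D) ^ (l - 2) := by
    intro s
    have h1 : (R s).filter (fun p => ex l p b ∈ X) ⊆
        X.biUnion (fun x => (R s).filter (fun p => ex l p b = x)) := by
      intro p hp
      rw [Finset.mem_filter] at hp
      exact Finset.mem_biUnion.mpr ⟨ex l p b, hp.2, Finset.mem_filter.mpr ⟨hp.1, rfl⟩⟩
    refine (Finset.card_le_card h1).trans (Finset.card_biUnion_le.trans ?_)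
    calc _ ≤ ∑ x ∈ X, (K * D) ^ (l - 2) := by
          refine Finset.sum_le_sum fun x _ => ?_
          have h2 := walk_le G D K hG l {a, a + 1, b} (by
            intro j hj
            simp only [Finset.mem_insert, Finset.mem_singleton] at hj
            omega) ⟨a, by simp⟩ (fun j => if j = a then s else if j = a + 1 then w else x)
            ((R s).filter (fun p => ex l p b = x)) (fun p hp => ?_) (fun p hp j hj => ?_)
          · have e1 : ({a, a + 1, b} : Finset ℕ).card = 3 := by
              rw [Finset.card_eq_three]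
              exact ⟨a, a + 1, b, by omega, by omega, by omega, rfl⟩
            rw [e1] at h2
            have e2 : l + 1 - 3 = l - 2 := by omega
            rw [e2] at h2
            exact h2
          · exact (pth h𝓡 ((hRmem s p).mp (Finset.mem_filter.mp hp).1).1).1
          · obtain ⟨hp1, hp2⟩ := Finset.mem_filter.mp hp
            obtain ⟨_, hp3, hp4⟩ := (hRmem s p).mp hp1
            simp only [Finset.mem_insert, Finset.mem_singleton] at hj
            rcases hj with hj | hj | hj
            · rw [hj, if_pos rfl]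
              exact hp3
            · rw [hj, if_neg (by omega), if_pos rfl]
              exact hp4
            · rw [hj, if_neg (by omega), if_neg (by omega)]
              exact hp2
      _ ≤ ζ * (K * D) ^ (l - 2) := by
          rw [Finset.sum_const, smul_eq_mul]
          exact Nat.mul_le_mul_right _ hX
  set R' : V → Finset (Fin (l + 1) → V) := fun s => (R s).filter (fun p => ¬ ex l p b ∈ X) with hR'
  have hR'mem : ∀ s p, p ∈ R' s ↔ (p ∈ 𝓡 ∧ ex l p a = s ∧ ex l p (a + 1) = w) ∧ ex l p b ∉ X :=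
    fun s p => by
      rw [hR']
      simp only [Finset.mem_filter, hRmem]
  have hKpow : ∀ i, i ≤ l → K ^ i ≤ K ^ l := fun i hi => Nat.pow_le_pow_right hK hi
  have hR'c : ∀ s ∈ S, D ^ (l - 1) ≤ 2 * q * (R' s).card := by
    intro s hs
    have h1 := hRc s hs
    have h2 := hbad s
    have h3 : ((R s).filter (fun p => ex l p b ∈ X)).card + (R' s).card = (R s).card :=
      Finset.card_filter_add_card_filter_not _
    have h4 : 2 * (q * (ζ * (K * D) ^ (l - 2))) ≤ D ^ (l - 1) := by
      have e1 : l - 1 = (l - 2) + 1 := by omega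
      rw [e1, pow_succ, mul_pow]
      have h5 : 2 * q * ζ * K ^ (l - 2) ≤ D := by
        have h6 : 2 * q * ζ * K ^ (l - 2) ≤ 2 * q * ζ * K ^ l :=
          Nat.mul_le_mul_left _ (hKpow _ (by omega))
        have h7 : 2 * q * ζ * K ^ l ≤ 4 * q * (l + 1) * (ζ + 1) * K ^ l := by
          refine Nat.mul_le_mul_right _ ?_
          nlinarith [Nat.zero_le (q * ζ * l), Nat.zero_le (q * l), Nat.zero_le (q * ζ)]
        omega
      calc 2 * (q * (ζ * (K ^ (l - 2) * D ^ (l - 2))))
          = D ^ (l - 2) * (2 * q * ζ * K ^ (l - 2)) := by ring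
        _ ≤ D ^ (l - 2) * D := Nat.mul_le_mul_left _ h5
    have h5 : q * (R s).card ≤ q * (ζ * (K * D) ^ (l - 2)) + q * (R' s).card := by
      rw [← h3, mul_add]
      exact Nat.add_le_add_right (Nat.mul_le_mul_left _ h2) _
    have h6 : 2 * q * (R' s).card = 2 * (q * (R' s).card) := by ring
    omega
  -- the tuples
  set f : (Fin (l + 1) → V) → (Fin (n + 1) → V) := fun p i => ex l p (a + 1 + i) with hf
  have hfex : ∀ p i, i ≤ n → ex n (f p) i = ex l p (a + 1 + i) := by
    intro p i hi
    rw [ex_val n (f p) i hi]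
  set T : Finset (Fin (n + 1) → V) := (S.biUnion R').image f with hT
  have hTc : T.card ≤ (K * D) ^ n := by
    have h2 := walk_le G D K hG n {0} (by
      intro j hj
      rw [Finset.mem_singleton] at hj
      omega) ⟨0, by simp⟩ (fun _ => w) T (fun τ hτ i hi => ?_) (fun τ hτ j hj => ?_)
    · rw [Finset.card_singleton] at h2
      exact h2
    · rw [hT] at hτ
      obtain ⟨p, hp, rfl⟩ := Finset.mem_image.mp hτ
      obtain ⟨s, _, hp⟩ := Finset.mem_biUnion.mp hp
      rw [hfex p i (by omega), hfex p (i + 1) (by omega)]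
      exact (pth h𝓡 ((hR'mem s p).mp hp).1.1).1 (a + 1 + i) (by omega)
    · rw [hT] at hτ
      obtain ⟨p, hp, rfl⟩ := Finset.mem_image.mp hτ
      obtain ⟨s, _, hp⟩ := Finset.mem_biUnion.mp hp
      rw [Finset.mem_singleton] at hj
      rw [hj, hfex p 0 (by omega)]
      exact ((hR'mem s p).mp hp).1.2.2
  have hIcc : (Finset.Icc a b).card = n + 2 := by
    rw [Nat.card_Icc]
    omega
  have hfibc : ∀ s ∈ S, ∀ τ ∈ T, (fb f (R' s) τ).card ≤ (K * D) ^ z := by
    intro s _ τ _
    have h2 := walk_le G D K hG l (Finset.Icc a b) (by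
      intro j hj
      rw [Finset.mem_Icc] at hj
      omega) ⟨a, Finset.mem_Icc.mpr ⟨le_rfl, by omega⟩⟩
      (fun j => if j = a then s else ex n τ (j - (a + 1)))
      (fb f (R' s) τ) (fun p hp => ?_) (fun p hp j hj => ?_)
    · rw [hIcc] at h2
      have e2 : l + 1 - (n + 2) = z := by omega
      rw [e2] at h2
      exact h2
    · exact (pth h𝓡 ((hR'mem s p).mp ((mem_fb f _ τ p).mp hp).1).1.1).1
    · obtain ⟨hp1, hp2⟩ := (mem_fb f _ τ p).mp hp
      obtain ⟨⟨_, hp3, _⟩, _⟩ := (hR'mem s p).mp hp1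
      rw [Finset.mem_Icc] at hj
      by_cases hja : j = a
      · rw [hja, if_pos rfl]
        exact hp3
      · rw [if_neg hja, ← hp2, hfex p _ (by omega)]
        congr 1
        omega
  obtain ⟨τ, hτ, S', hS', hc1, hc2⟩ := avg S R' f T (2 * q) ((K * D) ^ n) ((K * D) ^ z)
    (D ^ (l - 1)) (fun s hs p hp => Finset.mem_image_of_mem _ (Finset.mem_biUnion.mpr ⟨s, hs, hp⟩))
    hTc hfibc hR'c hSne (Nat.pow_pos hD)
  have hρ : ex n τ n ∉ X := by
    rw [hT] at hτ
    obtain ⟨p, hp, rfl⟩ := Finset.mem_image.mp hτ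
    obtain ⟨s, _, hp⟩ := Finset.mem_biUnion.mp hp
    rw [hfex p n le_rfl, ← hn]
    exact ((hR'mem s p).mp hp).2
  have el : l - 1 = n + z := by omega
  refine ⟨ex n τ n, hρ, S', hS', ?_, ?_⟩
  · have h1 : S.card * D ^ (l - 1) ≤ (4 * q * K ^ l * S'.card) * D ^ (l - 1) := by
      refine hc1.trans ?_
      have h2 : 2 * (2 * q) * (K * D) ^ n * (K * D) ^ z * S'.card
          = (4 * q * K ^ (l - 1) * S'.card) * D ^ (l - 1) := by
        rw [el, pow_add, pow_add, mul_pow, mul_pow]
        ring
      rw [h2]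
      refine Nat.mul_le_mul_right _ (Nat.mul_le_mul_right _ (Nat.mul_le_mul_left _ ?_))
      exact hKpow _ (by omega)
    exact Nat.le_of_mul_le_mul_right h1 (Nat.pow_pos hD)
  · intro s hs W hW
    set Fb := fb f (R' s) τ with hFb
    have h1 : D ^ z ≤ 4 * q * K ^ n * Fb.card := by
      have h2 := hc2 s hs
      rw [el, pow_add, mul_pow] at h2
      refine Nat.le_of_mul_le_mul_left ?_ (Nat.pow_pos (n := n) hD)
      calc D ^ n * D ^ z ≤ _ := h2
        _ = _ := by ring
    by_contra hcon
    have h2 : ∀ p ∈ Fb, ∃ i, i ≤ l ∧ (i < a ∨ b < i) ∧ ex l p i ∈ W := by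
      intro p hp
      by_contra h3
      push Not at h3
      obtain ⟨hp1, hp2⟩ := (mem_fb f _ τ p).mp hp
      obtain ⟨⟨hp3, hp4, hp5⟩, _⟩ := (hR'mem s p).mp hp1
      refine hcon ⟨p, hp3, hp4, hp5, ?_, h3⟩
      rw [← hp2, hfex p n le_rfl, ← hn]
    have hsub : Fb ⊆ ((Finset.range (l + 1)).filter (fun i => i < a ∨ b < i)).biUnion
        (fun i => W.biUnion (fun x => Fb.filter (fun p => ex l p i = x))) := by
      intro p hp
      obtain ⟨i, hi, hi', hiW⟩ := h2 p hp
      refine Finset.mem_biUnion.mpr ⟨i, Finset.mem_filter.mpr ⟨Finset.mem_range.mpr (by omega),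
        hi'⟩, Finset.mem_biUnion.mpr ⟨ex l p i, hiW, Finset.mem_filter.mpr ⟨hp, rfl⟩⟩⟩
    have hub : Fb.card ≤ (l + 1) * (ζ * (K * D) ^ (z - 1)) := by
      refine (Finset.card_le_card hsub).trans (Finset.card_biUnion_le.trans ?_)
      calc _ ≤ ∑ i ∈ (Finset.range (l + 1)).filter (fun i => i < a ∨ b < i),
            ζ * (K * D) ^ (z - 1) := by
            refine Finset.sum_le_sum fun i hi => ?_
            obtain ⟨hi1, hi2⟩ := Finset.mem_filter.mp hi
            rw [Finset.mem_range] at hi1
            refine Finset.card_biUnion_le.trans ?_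
            calc _ ≤ ∑ x ∈ W, (K * D) ^ (z - 1) := by
                  refine Finset.sum_le_sum fun x _ => ?_
                  have h2 := walk_le G D K hG l (insert i (Finset.Icc a b)) (by
                    intro j hj
                    rw [Finset.mem_insert, Finset.mem_Icc] at hj
                    omega) ⟨i, Finset.mem_insert_self _ _⟩
                    (fun j => if j = i then x else if j = a then s else ex n τ (j - (a + 1)))
                    (Fb.filter (fun p => ex l p i = x)) (fun p hp => ?_) (fun p hp j hj => ?_)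
                  · rw [Finset.card_insert_of_notMem (by
                      rw [Finset.mem_Icc]
                      omega), hIcc] at h2
                    have e2 : l + 1 - (n + 2 + 1) = z - 1 := by omega
                    rw [e2] at h2
                    exact h2
                  · have hp' := (Finset.mem_filter.mp hp).1
                    exact (pth h𝓡 ((hR'mem s p).mp ((mem_fb f _ τ p).mp hp').1).1.1).1
                  · obtain ⟨hp0, hpx⟩ := Finset.mem_filter.mp hp
                    obtain ⟨hp1, hp2⟩ := (mem_fb f _ τ p).mp hp0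
                    obtain ⟨⟨_, hp3, _⟩, _⟩ := (hR'mem s p).mp hp1
                    rw [Finset.mem_insert, Finset.mem_Icc] at hj
                    by_cases hji : j = i
                    · rw [if_pos hji, hji]
                      exact hpx
                    · rw [if_neg hji]
                      by_cases hja : j = a
                      · rw [hja, if_pos rfl]
                        exact hp3
                      · rw [if_neg hja, ← hp2, hfex p _ (by omega)]
                        congr 1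
                        omega
              _ ≤ ζ * (K * D) ^ (z - 1) := by
                  rw [Finset.sum_const, smul_eq_mul]
                  exact Nat.mul_le_mul_right _ hW
        _ ≤ (l + 1) * (ζ * (K * D) ^ (z - 1)) := by
            rw [Finset.sum_const, smul_eq_mul]
            refine Nat.mul_le_mul_right _ ((Finset.card_filter_le _ _).trans ?_)
            rw [Finset.card_range]
    rcases Nat.eq_zero_or_pos z with hz0 | hz0
    · have h3 : 0 < Fb.card := by
        rcases Nat.eq_zero_or_pos Fb.card with h | h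
        · rw [h, hz0] at h1
          simp at h1
        · exact h
      obtain ⟨p, hp⟩ := Finset.card_pos.mp h3
      obtain ⟨i, hi, hi', _⟩ := h2 p hp
      omega
    · have e3 : z = (z - 1) + 1 := by omega
      have h3 : D ^ z ≤ D ^ (z - 1) * (4 * q * (l + 1) * ζ * K ^ l) := by
        refine h1.trans ((Nat.mul_le_mul_left _ hub).trans ?_)
        calc 4 * q * K ^ n * ((l + 1) * (ζ * (K * D) ^ (z - 1)))
            = D ^ (z - 1) * (4 * q * (l + 1) * ζ * K ^ (n + (z - 1))) := by
              rw [mul_pow, pow_add]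
              ring
          _ ≤ _ := Nat.mul_le_mul_left _ (Nat.mul_le_mul_left _ (hKpow _ (by omega)))
      rw [e3, pow_succ] at h3
      have e4 : z - 1 + 1 - 1 = z - 1 := by omega
      rw [e4] at h3
      have h4 := Nat.le_of_mul_le_mul_left h3 (Nat.pow_pos hD)
      have h5 : 4 * q * (l + 1) * ζ * K ^ l ≤ 4 * q * (l + 1) * (ζ + 1) * K ^ l :=
        Nat.mul_le_mul_right _ (Nat.mul_le_mul_left _ (Nat.le_succ _))
      omega

end Pool.Agent.TH667.KK
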