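import Pool.Agent.TH476.KHub

set_option autoImplicit false

open Classical

namespace Pool.Agent.TH667.KK

open Pool.Agent.TH476 Pool.Agent.TH476.KK

/-- fibres -/
noncomputable def fb {β γ : Type} (f : β → γ) (A : Finset β) (τ : γ) : Finset β :=
  A.filter (fun p => f p = τ)

lemma mem_fb {β γ : Type} (f : β → γ) (A : Finset β) (τ : γ) (p : β) :
    p ∈ fb f A τ ↔ p ∈ A ∧ f p = τ := by
  unfold fb
  rw [Finset.mem_filter]

/-- averaging over tuples -/
lemma avg {α β γ : Type} (S : Finset α) (R : α → Finset β) (f : β → γ) (T : Finset γ)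
    (c N F A : ℕ) (hT : ∀ s ∈ S, ∀ p ∈ R s, f p ∈ T) (hN : T.card ≤ N)
    (hF : ∀ s ∈ S, ∀ τ ∈ T, (fb f (R s) τ).card ≤ F)
    (hA : ∀ s ∈ S, A ≤ c * (R s).card) (hS : S.Nonempty) (hA0 : 0 < A) :
    ∃ τ ∈ T, ∃ S' ⊆ S, S.card * A ≤ 2 * c * N * F * S'.card ∧
      ∀ s ∈ S', A ≤ 2 * c * N * (fb f (R s) τ).card := by
  by_contra hcon
  have hTne : T.Nonempty := by
    obtain ⟨s, hs⟩ := hS
    have h1 : 0 < (R s).card := by
      rcases Nat.eq_zero_or_pos (R s).card with h | h
      · have := hA s hs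
        rw [h] at this
        omega
      · exact h
    obtain ⟨p, hp⟩ := Finset.card_pos.mp h1
    exact ⟨f p, hT s hs p hp⟩
  have key : ∀ τ ∈ T, 2 * c * N * ∑ s ∈ S, (fb f (R s) τ).card
      < 2 * (S.card * A) := by
    intro τ hτ
    set S' := S.filter (fun s => A ≤ 2 * c * N * (fb f (R s) τ).card) with hS'
    have h1 : 2 * c * N * F * S'.card < S.card * A := by
      by_contra h
      push Not at h
      exact hcon ⟨τ, hτ, S', Finset.filter_subset _ _, h, fun s hs => (Finset.mem_filter.mp hs).2⟩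
    have h2 : 2 * c * N * ∑ s ∈ S, (fb f (R s) τ).card
        ≤ 2 * c * N * F * S'.card + S.card * A := by
      rw [Finset.mul_sum, ← Finset.sum_filter_add_sum_filter_not S
        (fun s => A ≤ 2 * c * N * (fb f (R s) τ).card)]
      refine add_le_add ?_ ?_
      · calc _ ≤ ∑ s ∈ S', 2 * c * N * F := by
              refine Finset.sum_le_sum fun s hs => Nat.mul_le_mul_left _ ?_
              exact hF s (Finset.mem_filter.mp hs).1 τ hτ
          _ = 2 * c * N * F * S'.card := by
              rw [Finset.sum_const, smul_eq_mul, mul_comm]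
      · calc _ ≤ ∑ s ∈ S.filter (fun s => ¬ A ≤ 2 * c * N *
                (fb f (R s) τ).card), A := by
              refine Finset.sum_le_sum fun s hs => ?_
              have := (Finset.mem_filter.mp hs).2
              omega
          _ ≤ S.card * A := by
              rw [Finset.sum_const, smul_eq_mul]
              exact Nat.mul_le_mul_right _ (Finset.card_filter_le _ _)
    omega
  have h3 : ∑ τ ∈ T, 2 * c * N * ∑ s ∈ S, (fb f (R s) τ).card
      < ∑ τ ∈ T, 2 * (S.card * A) := Finset.sum_lt_sum_of_nonempty hTne key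
  rw [← Finset.mul_sum, Finset.sum_comm, Finset.sum_const, smul_eq_mul] at h3
  have h4 : ∀ s ∈ S, ∑ τ ∈ T, (fb f (R s) τ).card = (R s).card := by
    intro s hs
    exact (Finset.card_eq_sum_card_fiberwise (fun p hp => hT s hs p hp)).symm
  rw [Finset.sum_congr rfl h4] at h3
  have h5 : S.card * A ≤ c * ∑ s ∈ S, (R s).card := by
    rw [Finset.mul_sum, ← smul_eq_mul, ← Finset.sum_const]
    exact Finset.sum_le_sum hA
  have h6 : T.card * (2 * (S.card * A)) ≤ N * (2 * (S.card * A)) := Nat.mul_le_mul_right _ hN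
  have h7 : N * (2 * (S.card * A)) ≤ N * (2 * (c * ∑ s ∈ S, (R s).card)) :=
    Nat.mul_le_mul_left _ (Nat.mul_le_mul_left _ h5)
  have h8 : N * (2 * (c * ∑ s ∈ S, (R s).card)) = 2 * c * N * ∑ s ∈ S, (R s).card := by ring
  omega

/-- greedy selection of disjoint paths -/
lemma greedy {V : Type} (n len ζ' : ℕ) (S' W0 : Finset V) (hn : n ≤ S'.card) (hsub : S' ⊆ W0)
    (Gd : (ℕ → V) → Prop)
    (h : ∀ s ∈ S', ∀ W : Finset V, W.card ≤ ζ' → ∃ P : ℕ → V, P 0 = s ∧ Gd P ∧
      (∀ i, 1 ≤ i → i ≤ len → P i ∉ W) ∧ ∀ i i', i ≤ len → i' ≤ len → P i = P i' → i = i')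
    (hζ : W0.card + n * (len + 1) ≤ ζ') :
    ∃ P : Fin n → ℕ → V, (∀ j, P j 0 ∈ S' ∧ Gd (P j) ∧ ∀ i, 1 ≤ i → i ≤ len → P j i ∉ W0) ∧
      ∀ j j' i i', i ≤ len → i' ≤ len → P j i = P j' i' → j = j' ∧ i = i' := by
  obtain ⟨S1, hS1, hc⟩ := Finset.exists_subset_card_eq hn
  let e := (S1.equivFinOfCardEq hc).symm
  have main : ∀ m, m ≤ n → ∃ P : Fin n → ℕ → V,
      (∀ j : Fin n, (j : ℕ) < m → P j 0 = (e j : V) ∧ Gd (P j) ∧
        (∀ i, 1 ≤ i → i ≤ len → P j i ∉ W0) ∧
        ∀ i i', i ≤ len → i' ≤ len → P j i = P j i' → i = i') ∧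
      ∀ j j' : Fin n, (j : ℕ) < j' → (j' : ℕ) < m → ∀ i i', i ≤ len → i' ≤ len →
        P j i ≠ P j' i' := by
    intro m
    induction m with
    | zero =>
      intro _
      by_cases hV : Nonempty V
      · exact ⟨fun _ _ => Classical.choice hV, fun j hj => absurd hj (Nat.not_lt_zero _),
          fun j j' _ hj' => absurd hj' (Nat.not_lt_zero _)⟩
      · rcases Nat.eq_zero_or_pos n with h0 | h0
        · subst h0
          exact ⟨fun j => j.elim0, fun j => j.elim0, fun j => j.elim0⟩
        · exact absurd ⟨((e ⟨0, h0⟩ : S1) : V)⟩ hV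
    | succ m ih =>
      intro hm
      obtain ⟨P, hP1, hP2⟩ := ih (by omega)
      set W : Finset V := W0 ∪ (Finset.univ.filter (fun j : Fin n => (j : ℕ) < m)).biUnion
        (fun j => (Finset.range (len + 1)).image (P j)) with hW
      have hWc : W.card ≤ ζ' := by
        refine (Finset.card_union_le _ _).trans ?_
        refine le_trans (Nat.add_le_add_left ?_ _) hζ
        refine Finset.card_biUnion_le.trans ?_
        calc _ ≤ ∑ j ∈ Finset.univ.filter (fun j : Fin n => (j : ℕ) < m), (len + 1) := by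
              refine Finset.sum_le_sum fun j _ => ?_
              refine Finset.card_image_le.trans ?_
              rw [Finset.card_range]
          _ ≤ n * (len + 1) := by
              rw [Finset.sum_const, smul_eq_mul]
              refine Nat.mul_le_mul_right _ ((Finset.card_filter_le _ _).trans ?_)
              rw [Finset.card_univ, Fintype.card_fin]
      have hes : ((e ⟨m, by omega⟩ : S1) : V) ∈ S' := hS1 (e ⟨m, by omega⟩).2
      obtain ⟨Q, hQ0, hQ1, hQ2, hQ3⟩ := h _ hes W hWc
      refine ⟨fun j => if (j : ℕ) < m then P j else Q, ?_, ?_⟩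
      · intro j hj
        by_cases hjm : (j : ℕ) < m
        · simp only [hjm, if_true]
          exact hP1 j hjm
        · have hjm' : j = ⟨m, by omega⟩ := Fin.ext (by simp only; omega)
          simp only [hjm, if_false]
          refine ⟨by rw [hQ0, hjm'], hQ1, fun i h1 h2 hc => hQ2 i h1 h2 ?_, hQ3⟩
          rw [hW]
          exact Finset.mem_union_left _ hc
      · intro j j' hjj hj' i i' hi hi'
        have hjm : (j : ℕ) < m := by omega
        simp only [hjm, if_true]
        by_cases hjm' : (j' : ℕ) < m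
        · simp only [hjm', if_true]
          exact hP2 j j' hjj hjm' i i' hi hi'
        · have hjm2 : j' = ⟨m, by omega⟩ := Fin.ext (by simp only; omega)
          simp only [hjm', if_false]
          intro heq
          rcases Nat.eq_zero_or_pos i' with h0 | h0
          · subst h0
            rcases Nat.eq_zero_or_pos i with h00 | h00
            · subst h00
              rw [hQ0, (hP1 j hjm).1] at heq
              have h9 := e.injective (Subtype.ext heq)
              have := congrArg Fin.val h9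
              simp only at this
              omega
            · apply (hP1 j hjm).2.2.1 i h00 hi
              rw [heq, hQ0]
              exact hsub hes
          · apply hQ2 i' h0 hi'
            rw [← heq, hW]
            refine Finset.mem_union_right _ (Finset.mem_biUnion.mpr ⟨j, ?_, ?_⟩)
            · exact Finset.mem_filter.mpr ⟨Finset.mem_univ _, hjm⟩
            · exact Finset.mem_image_of_mem _ (Finset.mem_range.mpr (by omega))
  obtain ⟨P, hP1, hP2⟩ := main n le_rfl
  refine ⟨P, fun j => ?_, fun j j' i i' hi hi' heq => ?_⟩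
  · obtain ⟨h1, h2, h3, _⟩ := hP1 j j.2
    exact ⟨by rw [h1]; exact hS1 (e j).2, h2, h3⟩
  · rcases lt_trichotomy (j : ℕ) j' with hlt | heq' | hlt
    · exact absurd heq (hP2 j j' hlt j'.2 i i' hi hi')
    · have hjj : j = j' := Fin.ext heq'
      subst hjj
      exact ⟨rfl, (hP1 j j.2).2.2.2 i i' hi hi' heq⟩
    · exact absurd heq.symm (hP2 j' j hlt j.2 i' i hi' hi)

variable {V : Type} [Fintype V]

omit [Fintype V] in
lemma ex_val (n : ℕ) (φ : Fin (n + 1) → V) (i : ℕ) (hi : i ≤ n) :
    ex n φ i = φ ⟨i, Nat.lt_succ_of_le hi⟩ := by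
  unfold ex
  congr 1
  exact Fin.ext (min_eq_left hi)

lemma card_compl' {ι : Type} [Fintype ι] (S : Finset ι) :
    Sᶜ.card = Fintype.card ι - S.card := Finset.card_compl S

/-- number of walks with prescribed values at some positions -/
lemma walk_le (G : SimpleGraph V) (D K : ℕ) (hG : AR G D K) (n : ℕ) (J : Finset ℕ)
    (hJ : ∀ j ∈ J, j ≤ n) (hne : J.Nonempty) (ψ : ℕ → V) (𝓢 : Finset (Fin (n + 1) → V))
    (h1 : ∀ φ ∈ 𝓢, ∀ i, i < n → G.Adj (ex n φ i) (ex n φ (i + 1)))
    (h2 : ∀ φ ∈ 𝓢, ∀ j ∈ J, ex n φ j = ψ j) : 𝓢.card ≤ (K * D) ^ (n + 1 - J.card) := by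
  set S : Finset (Fin (n + 1)) := Finset.univ.filter (fun i => (i : ℕ) ∈ J) with hS
  have hmem : ∀ i : Fin (n + 1), i ∈ S ↔ (i : ℕ) ∈ J := fun i => by rw [hS]; simp
  have hcard : S.card = J.card := by
    refine Finset.card_bij (fun i _ => (i : ℕ)) (fun i hi => (hmem i).mp hi)
      (fun i _ j _ h => Fin.ext h) (fun j hj => ?_)
    exact ⟨⟨j, Nat.lt_succ_of_le (hJ j hj)⟩, (hmem _).mpr hj, rfl⟩
  have hSne : S.Nonempty := by
    rw [← Finset.card_pos, hcard, Finset.card_pos]
    exact hne
  have h3 := hom_le (SimpleGraph.pathGraph (n + 1)) (SimpleGraph.pathGraph_connected n) G D K hG S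
    hSne (fun i => ψ i) 𝓢 (fun φ hφ u v huv => ?_) (fun φ hφ u hu => ?_)
  · rw [card_compl', Fintype.card_fin, hcard] at h3
    exact h3
  · rw [SimpleGraph.pathGraph_adj] at huv
    rcases huv with huv | huv
    · have h4 := h1 φ hφ u (by have := v.2; omega)
      rw [ex_val n φ u (by have := u.2; omega), ex_val n φ (u + 1) (by have := v.2; omega)] at h4
      have e1 : (⟨(u : ℕ) + 1, Nat.lt_succ_of_le (by have := v.2; omega)⟩ : Fin (n + 1)) = v :=
        Fin.ext huv
      rw [e1] at h4
      exact h4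
    · have h4 := h1 φ hφ v (by have := u.2; omega)
      rw [ex_val n φ v (by have := v.2; omega), ex_val n φ (v + 1) (by have := u.2; omega)] at h4
      have e1 : (⟨(v : ℕ) + 1, Nat.lt_succ_of_le (by have := u.2; omega)⟩ : Fin (n + 1)) = u :=
        Fin.ext huv
      rw [e1] at h4
      exact h4.symm
  · have h4 := h2 φ hφ u ((hmem u).mp hu)
    rw [ex_val n φ u (by have := u.2; omega)] at h4
    exact h4

end Pool.Agent.TH667.KK
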